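import Pool.Agent.P.MP_e4ac67_pr.D.B1T0
import Pool.Agent.P.MP_e4ac67_pr.D.B1T1
import Pool.Agent.P.MP_e4ac67_pr.D.B1T2
import Pool.Agent.P.MP_e4ac67_pr.D.B1T3
import Pool.Agent.P.MP_e4ac67_pr.D.B1T4
import Pool.Agent.P.MP_e4ac67_pr.D.B1T5

namespace Pool.Agent.P.MP_e4ac67_pr.Gr.B1

theorem p333 : Cs F 1 3 3 3 false :=
  bondU (D := D) (pk := false) (Mz := Mz) (Mk := Mk0) (κ := 281983035269) (ik := 4287228905319) (Mc := Mc)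
    (X := ⟨224165971684, (0, 20309797268, 13063580062), (0, 77882742067, 46787664036), (0, 2263279701), (0, 10734794921),
    (0, 62881825739, 50257183624), (0, 62881825740, 50257183625), (0, 1043176912, 827744420), (0, 3895798722, 3091439007)⟩)
    (L := [([(765860862, 34212579), (995460893, 43835318), (994115359, 43791963), (676224015, 30414211)], (11560356575, 704096600)),
    ([(4042556000, 202492506), (4223421075, 210275433), (2934494518, 149532513)], (48039824627, 3479460036)),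
    ([(12525979466, 748966134), (10763202530, 652300645)], (168905695910, 15760522179))])
    (l := [(0, 604471256, 236663010), (0, 294530864, 204613393), (0, 348058119, 251986771), (0, 344843807, 250536416), (0, 234738762, 170444181)])
    (V := V0)
    (x := (0, 844207571, 68913850))
    (y := (0, 4317366364, 3038305319))
    (c0 := (0, 57997898446, 38270734842))
    (u1 := (0, 4529339736, 3228072820))
    (u2 := (0, 4529339736, 3228072820))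
    (fun _ _ hT => ⟨⟨t1_0 hT, ⟨t2_9 hT, t2_10 hT⟩, ⟨t2_0 hT, t2_1 hT⟩, t2_11 hT, t2_2 hT,
    ⟨t3_6 hT, t3_7 hT⟩, ⟨t3_0 hT, t3_1 hT⟩, ⟨t5_0 hT, t5_1 hT⟩, ⟨t4_0 hT, t4_1 hT⟩⟩,
    ⟨⟨t6_0 hT, t6_1 hT⟩, ⟨t7_0 hT, t7_1 hT⟩, ⟨t8_0 hT, t8_1 hT⟩, ⟨t9_0 hT, t9_1 hT⟩, ⟨t10_0 hT, t10_1 hT⟩, trivial⟩, ⟨t11_0 hT, t11_1 hT⟩,
    ⟨t12_0 hT, t12_1 hT, ⟨t13_0 hT, t13_1 hT⟩⟩, ⟨t14_0 hT, t14_1 hT⟩, ⟨t16_0 hT, t16_1 hT⟩, ⟨t15_0 hT, t15_1 hT⟩,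
    ⟨⟨⟨⟨t7_6 hT, t7_7 hT⟩, ⟨t8_6 hT, t8_7 hT⟩, ⟨t9_6 hT, t9_7 hT⟩, ⟨t10_6 hT, t10_7 hT⟩, trivial⟩, ⟨t11_6 hT, t11_7 hT⟩, by decide⟩,
    ⟨⟨⟨t8_8 hT, t8_9 hT⟩, ⟨t9_8 hT, t9_9 hT⟩, ⟨t10_8 hT, t10_9 hT⟩, trivial⟩, ⟨t11_8 hT, t11_9 hT⟩, by decide⟩,
    ⟨⟨⟨t9_10 hT, t9_11 hT⟩, ⟨t10_10 hT, t10_11 hT⟩, trivial⟩, ⟨t11_10 hT, t11_11 hT⟩, by decide⟩,
    trivial⟩⟩)
    (by decide +kernel)

theorem p353 : Cs F 1 3 5 3 false :=
  bondU (D := D) (pk := false) (Mz := Mz) (Mk := Mk0) (κ := 281983035269) (ik := 4287228905319) (Mc := Mc)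
    (X := ⟨224165971684, (0, 20309797268, 13063580062), (0, 78134714855, 46809149403), (0, 2263279701), (0, 10738500646),
    (0, 62881825739, 50257183624), (0, 66340079656, 50306433061), (0, 1043176912, 827744420), (0, 4106418215, 3092491667)⟩)
    (L := [([(765860862, 34212579), (995460893, 43835318), (994115359, 43791963), (676224015, 30414211)], (11560356575, 704096600)),
    ([(4042556000, 202492506), (4223421075, 210275433), (2934494518, 149532513)], (48039824627, 3479460036)),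
    ([(12525979466, 748966134), (10763202530, 652300645)], (168905695910, 15760522179))])
    (l := [(0, 604471256, 236663010), (0, 294530864, 204613393), (0, 348058119, 251986771), (0, 344843807, 250536416), (0, 234738762, 170444181)])
    (V := V0)
    (x := (0, 844207571, 68913850))
    (y := (0, 4317366364, 3038305319))
    (c0 := (0, 59709303002, 38277173295))
    (u1 := (0, 4529339736, 3228072820))
    (u2 := (0, 4753617453, 3228669677))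
    (fun _ _ hT => ⟨⟨t1_1 hT, ⟨t2_12 hT, t2_13 hT⟩, ⟨t2_3 hT, t2_4 hT⟩, t2_14 hT, t2_5 hT,
    ⟨t3_8 hT, t3_9 hT⟩, ⟨t3_2 hT, t3_3 hT⟩, ⟨t5_2 hT, t5_3 hT⟩, ⟨t4_2 hT, t4_3 hT⟩⟩,
    ⟨⟨t6_2 hT, t6_3 hT⟩, ⟨t7_2 hT, t7_3 hT⟩, ⟨t8_2 hT, t8_3 hT⟩, ⟨t9_2 hT, t9_3 hT⟩, ⟨t10_2 hT, t10_3 hT⟩, trivial⟩, ⟨t11_2 hT, t11_3 hT⟩,
    ⟨t12_2 hT, t12_3 hT, ⟨t13_2 hT, t13_3 hT⟩⟩, ⟨t14_2 hT, t14_3 hT⟩, ⟨t16_2 hT, t16_3 hT⟩, ⟨t15_2 hT, t15_3 hT⟩,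
    ⟨⟨⟨⟨t7_8 hT, t7_9 hT⟩, ⟨t8_10 hT, t8_11 hT⟩, ⟨t9_12 hT, t9_13 hT⟩, ⟨t10_12 hT, t10_13 hT⟩, trivial⟩, ⟨t11_12 hT, t11_13 hT⟩, by decide⟩,
    ⟨⟨⟨t8_12 hT, t8_13 hT⟩, ⟨t9_14 hT, t9_15 hT⟩, ⟨t10_14 hT, t10_15 hT⟩, trivial⟩, ⟨t11_14 hT, t11_15 hT⟩, by decide⟩,
    ⟨⟨⟨t9_16 hT, t9_17 hT⟩, ⟨t10_16 hT, t10_17 hT⟩, trivial⟩, ⟨t11_16 hT, t11_17 hT⟩, by decide⟩,
    trivial⟩⟩)
    (by decide +kernel)

theorem p533 : Cs F 1 5 3 3 false :=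
  bondU (D := D) (pk := false) (Mz := Mz) (Mk := Mk0) (κ := 281983035269) (ik := 4287228905319) (Mc := Mc)
    (X := ⟨224165971684, (0, 20703400424, 13069060007), (0, 77882742067, 46787664036), (0, 2264050199), (0, 10734794921),
    (0, 66340079655, 50306433060), (0, 62881825740, 50257183625), (0, 1099526953, 828021927), (0, 3895798722, 3091439007)⟩)
    (L := [([(768849562, 34297577), (998776916, 43929349), (997382257, 43884727), (678446202, 30478203)], (11603104739, 705571413)),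
    ([(4042556000, 202492506), (4223421075, 210275433), (2934494518, 149532513)], (48039824627, 3479460036)),
    ([(12525979466, 748966134), (10763202530, 652300645)], (168905695910, 15760522179))])
    (l := [(0, 585002793, 219161697), (0, 308192216, 203709018), (0, 366780582, 251865968), (0, 363625177, 250510408), (0, 247397851, 170457239)])
    (V := V0)
    (x := (0, 777341857, 71447502))
    (y := (0, 4516460180, 3038852924))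
    (c0 := (0, 57997898446, 38270734842))
    (u1 := (0, 4753617453, 3228669677))
    (u2 := (0, 4529339736, 3228072820))
    (fun _ _ hT => ⟨⟨t1_2 hT, ⟨t2_15 hT, t2_16 hT⟩, ⟨t2_6 hT, t2_7 hT⟩, t2_17 hT, t2_8 hT,
    ⟨t3_10 hT, t3_11 hT⟩, ⟨t3_4 hT, t3_5 hT⟩, ⟨t5_4 hT, t5_5 hT⟩, ⟨t4_4 hT, t4_5 hT⟩⟩,
    ⟨⟨t6_4 hT, t6_5 hT⟩, ⟨t7_4 hT, t7_5 hT⟩, ⟨t8_4 hT, t8_5 hT⟩, ⟨t9_4 hT, t9_5 hT⟩, ⟨t10_4 hT, t10_5 hT⟩, trivial⟩, ⟨t11_4 hT, t11_5 hT⟩,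
    ⟨t12_4 hT, t12_5 hT, ⟨t13_4 hT, t13_5 hT⟩⟩, ⟨t14_4 hT, t14_5 hT⟩, ⟨t16_4 hT, t16_5 hT⟩, ⟨t15_4 hT, t15_5 hT⟩,
    ⟨⟨⟨⟨t7_10 hT, t7_11 hT⟩, ⟨t8_14 hT, t8_15 hT⟩, ⟨t9_18 hT, t9_19 hT⟩, ⟨t10_18 hT, t10_19 hT⟩, trivial⟩, ⟨t11_18 hT, t11_19 hT⟩, by decide⟩,
    ⟨⟨⟨t8_16 hT, t8_17 hT⟩, ⟨t9_20 hT, t9_21 hT⟩, ⟨t10_20 hT, t10_21 hT⟩, trivial⟩, ⟨t11_20 hT, t11_21 hT⟩, by decide⟩,
    ⟨⟨⟨t9_22 hT, t9_23 hT⟩, ⟨t10_22 hT, t10_23 hT⟩, trivial⟩, ⟨t11_22 hT, t11_23 hT⟩, by decide⟩,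
    trivial⟩⟩)
    (by decide +kernel)

theorem p964 : Cs F 0 9 6 4 false :=
  bondU (D := D) (pk := false) (Mz := Mz) (Mk := Mk1) (κ := 289073768628) (ik := 4182066831427) (Mc := Mc)
    (X := ⟨187633155614, (44050427827, 2620372640, 457526825), (0, 47782433069, 15999091763), (10341855959, 44984973), (0, 2677921480),
    (48608454034, 1003399305, 205372365), (0, 134781736137, 58840523645), (3009051256, 64087708, 13115162), (0, 1964591169, 844848074)⟩)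
    (L := [([(3345510516, 171127316), (3563269622, 180260772), (1090437073, 48423549)], (17530994547, 1102023090)),
    ([(11110602716, 668213740), (4017355161, 202099530)], (67712701540, 5196716330))])
    (l := [(709253001, 113514051, 20449854), (891473789, 44920442, 8133854), (902065262, 38158041, 6911199), (267162124, 11002626, 1881684)])
    (V := V1)
    (x := (2138842828, 283408681, 45817243))
    (y := (4431494097, 175540598, 31612287))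
    (c0 := (0, 31767838981, 11195663712))
    (u1 := (3659390276, 135909058, 24696103))
    (u2 := (0, 8864884290, 3251059575))
    (fun _ _ hT => ⟨⟨t17_0 hT, ⟨t18_6 hT, t18_7 hT⟩, ⟨t18_0 hT, t18_1 hT⟩, t18_8 hT, t18_2 hT,
    ⟨t19_4 hT, t19_5 hT⟩, ⟨t19_0 hT, t19_1 hT⟩, ⟨t21_0 hT, t21_1 hT⟩, ⟨t20_0 hT, t20_1 hT⟩⟩,
    ⟨⟨t22_0 hT, t22_1 hT⟩, ⟨t23_0 hT, t23_1 hT⟩, ⟨t24_0 hT, t24_1 hT⟩, ⟨t25_0 hT, t25_1 hT⟩, trivial⟩, ⟨t26_0 hT, t26_1 hT⟩,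
    ⟨t27_0 hT, t27_1 hT, ⟨t28_0 hT, t28_1 hT⟩⟩, ⟨t29_0 hT, t29_1 hT⟩, ⟨t31_0 hT, t31_1 hT⟩, ⟨t30_0 hT, t30_1 hT⟩,
    ⟨⟨⟨⟨t23_4 hT, t23_5 hT⟩, ⟨t24_4 hT, t24_5 hT⟩, ⟨t25_4 hT, t25_5 hT⟩, trivial⟩, ⟨t26_4 hT, t26_5 hT⟩, by decide⟩,
    ⟨⟨⟨t24_6 hT, t24_7 hT⟩, ⟨t25_6 hT, t25_7 hT⟩, trivial⟩, ⟨t26_6 hT, t26_7 hT⟩, by decide⟩,
    trivial⟩⟩)
    (by decide +kernel)

theorem p074 : Cs F 0 0 7 4 false :=
  bondU (D := D) (pk := false) (Mz := Mz) (Mk := Mk1) (κ := 289073768628) (ik := 4182066831427) (Mc := Mc)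
    (X := ⟨187633155614, (44050570211, 9031809972, 984775800), (0, 46363285667, 15712329642), (10341862099, 110724672), (0, 2647573546),
    (48608482064, 4078729822, 505498415), (0, 116389096451, 58539885529), (3009053048, 260541060, 32280819), (0, 1681376941, 835263963)⟩)
    (L := [([(3345510516, 171127316), (3563269622, 180260772), (1090437073, 48423549)], (17530994547, 1102023090)),
    ([(11110602716, 668213740), (4017355161, 202099530)], (67712701540, 5196716330))])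
    (l := [(709258799, 406440335, 46181514), (891476034, 162478098, 18487275), (902067167, 138144417, 15713500), (267162800, 38241900, 4253561)])
    (V := V1)
    (x := (2138863315, 904718809, 92862910))
    (y := (4431503090, 626852290, 71288544))
    (c0 := (0, 29476791404, 11015446649))
    (u1 := (3659396987, 490133239, 56145115))
    (u2 := (0, 8008513050, 3202103572))
    (fun _ _ hT => ⟨⟨t17_1 hT, ⟨t18_9 hT, t18_10 hT⟩, ⟨t18_3 hT, t18_4 hT⟩, t18_11 hT, t18_5 hT,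
    ⟨t19_6 hT, t19_7 hT⟩, ⟨t19_2 hT, t19_3 hT⟩, ⟨t21_2 hT, t21_3 hT⟩, ⟨t20_2 hT, t20_3 hT⟩⟩,
    ⟨⟨t22_2 hT, t22_3 hT⟩, ⟨t23_2 hT, t23_3 hT⟩, ⟨t24_2 hT, t24_3 hT⟩, ⟨t25_2 hT, t25_3 hT⟩, trivial⟩, ⟨t26_2 hT, t26_3 hT⟩,
    ⟨t27_2 hT, t27_3 hT, ⟨t28_2 hT, t28_3 hT⟩⟩, ⟨t29_2 hT, t29_3 hT⟩, ⟨t31_2 hT, t31_3 hT⟩, ⟨t30_2 hT, t30_3 hT⟩,
    ⟨⟨⟨⟨t23_6 hT, t23_7 hT⟩, ⟨t24_8 hT, t24_9 hT⟩, ⟨t25_8 hT, t25_9 hT⟩, trivial⟩, ⟨t26_8 hT, t26_9 hT⟩, by decide⟩,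
    ⟨⟨⟨t24_10 hT, t24_11 hT⟩, ⟨t25_10 hT, t25_11 hT⟩, trivial⟩, ⟨t26_10 hT, t26_11 hT⟩, by decide⟩,
    trivial⟩⟩)
    (by decide +kernel)

theorem p784 : Cs F 0 7 8 4 false :=
  bondU (D := D) (pk := false) (Mz := Mz) (Mk := Mk2) (κ := 289622983237) (ik := 4174136341333) (Mc := Mc)
    (X := ⟨189504280503, (0, 46339208339, 15702263135), (44197695369, 12054513750, 1974351080), (0, 2646761306), (10354127944, 222180004),
    (0, 116389096451, 58539885529), (48649467178, 4913903736, 1014211946), (0, 1681376941, 835263963), (3001036997, 312815547, 64542060)⟩)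
    (L := [([(643239780, 29144706), (837702117, 37396166), (844161403, 37613102), (222145934, 8883276)], (2438286277, 128213017)),
    ([(3372668412, 172027787), (3557766286, 179880594), (963696941, 43024650)], (10319867110, 630953596)),
    ([(10513092387, 640424748), (3363933767, 172155577)], (37824554315, 2853120625))])
    (l := [(0, 1446727221, 310700245), (0, 524958595, 206338018), (0, 601510453, 250617501), (0, 599235316, 251013719), (0, 152456911, 65066354)])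
    (V := V2)
    (x := (0, 2951643300, 188623511))
    (y := (0, 1814764312, 739202097))
    (c0 := (36565106128, 7673877972, 1342592737))
    (u1 := (0, 8055994200, 3222230682))
    (u2 := (3478354093, 565821001, 107180396))
    (fun _ _ hT => ⟨⟨t32_0 hT, ⟨t33_3 hT, t33_4 hT⟩, ⟨t33_0 hT, t33_1 hT⟩, t33_5 hT, t33_2 hT,
    ⟨t34_2 hT, t34_3 hT⟩, ⟨t34_0 hT, t34_1 hT⟩, ⟨t36_0 hT, t36_1 hT⟩, ⟨t35_0 hT, t35_1 hT⟩⟩,
    ⟨⟨t37_0 hT, t37_1 hT⟩, ⟨t38_0 hT, t38_1 hT⟩, ⟨t39_0 hT, t39_1 hT⟩, ⟨t40_0 hT, t40_1 hT⟩, ⟨t41_0 hT, t41_1 hT⟩, trivial⟩, ⟨t42_0 hT, t42_1 hT⟩,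
    ⟨t43_0 hT, t43_1 hT, ⟨t44_0 hT, t44_1 hT⟩⟩, ⟨t45_0 hT, t45_1 hT⟩, ⟨t47_0 hT, t47_1 hT⟩, ⟨t46_0 hT, t46_1 hT⟩,
    ⟨⟨⟨⟨t38_2 hT, t38_3 hT⟩, ⟨t39_2 hT, t39_3 hT⟩, ⟨t40_2 hT, t40_3 hT⟩, ⟨t41_2 hT, t41_3 hT⟩, trivial⟩, ⟨t42_2 hT, t42_3 hT⟩, by decide⟩,
    ⟨⟨⟨t39_4 hT, t39_5 hT⟩, ⟨t40_4 hT, t40_5 hT⟩, ⟨t41_4 hT, t41_5 hT⟩, trivial⟩, ⟨t42_4 hT, t42_5 hT⟩, by decide⟩,
    ⟨⟨⟨t40_6 hT, t40_7 hT⟩, ⟨t41_6 hT, t41_7 hT⟩, trivial⟩, ⟨t42_6 hT, t42_7 hT⟩, by decide⟩,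
    trivial⟩⟩)
    (by decide +kernel)

theorem c0 : Cs F 1 3 3 3 false := p333

theorem c1 : Cs F 1 3 5 3 false := p353

theorem c2 : Cs F 1 5 3 3 false := p533

theorem c3 : Cs F 0 9 6 4 false := p964

theorem c4 : Cs F 0 0 7 4 false := p074

theorem c5 : Cs F 0 7 8 4 false := p784


end Pool.Agent.P.MP_e4ac67_pr.Gr.B1
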