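import Pool.Agent.P.MP_e4ac67_pr.D.B2T0
import Pool.Agent.P.MP_e4ac67_pr.D.B2T1
import Pool.Agent.P.MP_e4ac67_pr.D.B2T2
import Pool.Agent.P.MP_e4ac67_pr.D.B2T3
import Pool.Agent.P.MP_e4ac67_pr.D.B2T4
import Pool.Agent.P.MP_e4ac67_pr.D.B2T5
import Pool.Agent.P.MP_e4ac67_pr.D.B2T6
import Pool.Agent.P.MP_e4ac67_pr.D.B2T7
import Pool.Agent.P.MP_e4ac67_pr.D.B2T8
import Pool.Agent.P.MP_e4ac67_pr.D.B2T9
import Pool.Agent.P.MP_e4ac67_pr.D.B2T10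
import Pool.Agent.P.MP_e4ac67_pr.D.B2T11
import Pool.Agent.P.MP_e4ac67_pr.D.B2T12
import Pool.Agent.P.MP_e4ac67_pr.D.B2T13
import Pool.Agent.P.MP_e4ac67_pr.D.B2T14

namespace Pool.Agent.P.MP_e4ac67_pr.Gr.B2

theorem p333 : Cs F 1 3 3 3 true :=
  bondF (D := D) (pk := true) (Mz := Mz) (Mk := Mk0) (κ := 347519198858) (ik := 3478731027199) (M := M) (Mb := M)
    (X := ⟨287473259797, (0, 38738731853, 27367015110), (0, 128926687335, 85323331202), (0, 3298708714), (0, 14955727539),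
    (0, 85959806578, 65174399393), (0, 85959806585, 65174399397), (0, 3501601931, 2728658662), (0, 10714785019, 8349871346)⟩)
    (L := [[(2881806921, 147678994), (3892433694, 19170237), (3874803318, 50258537), (642886863, 4104363)],
    [(14133116528, 666249900), (14613397118, 183309751), (2536932712, 16004180)],
    [(37562213544, 1980280518), (8402756386, 39587283)]])
    (l1 := [(0, 3303131322, 1428411307), (0, 1732480210, 1232336446), (0, 2043281620, 1549836825), (0, 2092352334, 1573417452), (0, 827908670, 633106083), (0, 3646704644, 2801288019)])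
    (l2 := [(0, 10266935169, 4417522669), (0, 5154391206, 3664903317), (0, 5178909896, 3930851182), (0, 2092352334, 1573417452), (0, 827908670, 633106083), (0, 3646704644, 2801288019)])
    (V1 := V2)
    (V2 := V0)
    (U1 := V3)
    (U2 := V1)
    (x1 := (0, 6608030974, 924524151))
    (x2 := (0, 15842176977, 2216490780))
    (y1 := (0, 1554951071, 1205262382))
    (y2 := (0, 1554951071, 1205262382))
    (fun _ _ hT => ⟨⟨t1_0 hT, ⟨t2_9 hT, t2_10 hT⟩, ⟨t2_0 hT, t2_1 hT⟩, t2_11 hT, t2_2 hT,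
    ⟨t3_6 hT, t3_7 hT⟩, ⟨t3_0 hT, t3_1 hT⟩, ⟨t5_0 hT, t5_1 hT⟩, ⟨t4_0 hT, t4_1 hT⟩⟩,
    ⟨⟨t20_0 hT, t20_1 hT⟩, ⟨t21_0 hT, t21_1 hT⟩, ⟨t22_0 hT, t22_1 hT⟩, ⟨t23_0 hT, t23_1 hT⟩, ⟨t24_0 hT, t24_1 hT⟩, ⟨t25_0 hT, t25_1 hT⟩, trivial⟩,
    ⟨⟨t10_0 hT, t10_1 hT⟩, ⟨t11_0 hT, t11_1 hT⟩, ⟨t12_0 hT, t12_1 hT⟩, ⟨t13_0 hT, t13_1 hT⟩, ⟨t14_0 hT, t14_1 hT⟩, ⟨t15_0 hT, t15_1 hT⟩, trivial⟩,
    ⟨t26_0 hT, t26_1 hT, ⟨t27_0 hT, t27_1 hT⟩⟩, ⟨t16_0 hT, t16_1 hT, ⟨t17_0 hT, t17_1 hT⟩⟩,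
    ⟨t28_0 hT, ⟨t29_0 hT, t29_1 hT⟩⟩, ⟨t18_0 hT, ⟨t19_0 hT, t19_1 hT⟩⟩,
    ⟨⟨⟨⟨t6_0 hT, t6_1 hT⟩, ⟨t7_0 hT, t7_1 hT⟩, ⟨t8_0 hT, t8_1 hT⟩, ⟨t9_0 hT, t9_1 hT⟩, trivial⟩, by decide⟩,
    ⟨⟨⟨t7_2 hT, t7_3 hT⟩, ⟨t8_2 hT, t8_3 hT⟩, ⟨t9_2 hT, t9_3 hT⟩, trivial⟩, by decide⟩,
    ⟨⟨⟨t8_4 hT, t8_5 hT⟩, ⟨t9_4 hT, t9_5 hT⟩, trivial⟩, by decide⟩,
    trivial⟩⟩)
    (by decide +kernel)

theorem p353 : Cs F 1 3 5 3 true :=
  bondF (D := D) (pk := true) (Mz := Mz) (Mk := Mk0) (κ := 347519198858) (ik := 3478731027199) (M := M) (Mb := M)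
    (X := ⟨287473259797, (0, 38738731853, 27367015110), (0, 132440083764, 86056537190), (0, 3298708714), (0, 15055747820),
    (0, 85959806578, 65174399393), (0, 88103512453, 65741008793), (0, 3501601931, 2728658662), (0, 10924952335, 8409083781)⟩)
    (L := [[(2881806921, 147678994), (3892433694, 19170237), (3874803318, 50258537), (642886863, 4104363)],
    [(14133116528, 666249900), (14613397118, 183309751), (2536932712, 16004180)],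
    [(37562213544, 1980280518), (8402756386, 39587283)]])
    (l1 := [(0, 3303131322, 1428411307), (0, 1732480210, 1232336446), (0, 2043281620, 1549836825), (0, 2092352334, 1573417452), (0, 827908670, 633106083), (0, 3646704644, 2801288019)])
    (l2 := [(0, 9491027021, 4067561325), (0, 5166396777, 3650158774), (0, 5278904129, 3951364145), (0, 2144049520, 1583001028), (0, 846173251, 637224738), (0, 3725750137, 2819814848)])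
    (V1 := V2)
    (V2 := V0)
    (U1 := V3)
    (U2 := V1)
    (x1 := (0, 6608030974, 924524151))
    (x2 := (0, 15482757960, 2305497631))
    (y1 := (0, 1554951071, 1205262382))
    (y2 := (0, 1585704411, 1213292561))
    (fun _ _ hT => ⟨⟨t1_1 hT, ⟨t2_12 hT, t2_13 hT⟩, ⟨t2_3 hT, t2_4 hT⟩, t2_14 hT, t2_5 hT,
    ⟨t3_8 hT, t3_9 hT⟩, ⟨t3_2 hT, t3_3 hT⟩, ⟨t5_2 hT, t5_3 hT⟩, ⟨t4_2 hT, t4_3 hT⟩⟩,
    ⟨⟨t20_2 hT, t20_3 hT⟩, ⟨t21_2 hT, t21_3 hT⟩, ⟨t22_2 hT, t22_3 hT⟩, ⟨t23_2 hT, t23_3 hT⟩, ⟨t24_2 hT, t24_3 hT⟩, ⟨t25_2 hT, t25_3 hT⟩, trivial⟩,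
    ⟨⟨t10_2 hT, t10_3 hT⟩, ⟨t11_2 hT, t11_3 hT⟩, ⟨t12_2 hT, t12_3 hT⟩, ⟨t13_2 hT, t13_3 hT⟩, ⟨t14_2 hT, t14_3 hT⟩, ⟨t15_2 hT, t15_3 hT⟩, trivial⟩,
    ⟨t26_2 hT, t26_3 hT, ⟨t27_2 hT, t27_3 hT⟩⟩, ⟨t16_2 hT, t16_3 hT, ⟨t17_2 hT, t17_3 hT⟩⟩,
    ⟨t28_1 hT, ⟨t29_2 hT, t29_3 hT⟩⟩, ⟨t18_1 hT, ⟨t19_2 hT, t19_3 hT⟩⟩,
    ⟨⟨⟨⟨t6_2 hT, t6_3 hT⟩, ⟨t7_4 hT, t7_5 hT⟩, ⟨t8_6 hT, t8_7 hT⟩, ⟨t9_6 hT, t9_7 hT⟩, trivial⟩, by decide⟩,
    ⟨⟨⟨t7_6 hT, t7_7 hT⟩, ⟨t8_8 hT, t8_9 hT⟩, ⟨t9_8 hT, t9_9 hT⟩, trivial⟩, by decide⟩,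
    ⟨⟨⟨t8_10 hT, t8_11 hT⟩, ⟨t9_10 hT, t9_11 hT⟩, trivial⟩, by decide⟩,
    trivial⟩⟩)
    (by decide +kernel)

theorem p533 : Cs F 1 5 3 3 true :=
  bondF (D := D) (pk := true) (Mz := Mz) (Mk := Mk0) (κ := 347519198858) (ik := 3478731027199) (M := M) (Mb := M)
    (X := ⟨287473259797, (0, 40400911169, 27588604748), (0, 128926687335, 85323331202), (0, 3320707332), (0, 14955727539),
    (0, 88103512449, 65741008789), (0, 85959806585, 65174399397), (0, 3570233017, 2747996637), (0, 10714785019, 8349871346)⟩)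
    (L := [[(2903826955, 147900028), (3915250434, 19298154), (3899289714, 50527566), (646561340, 4126216)],
    [(14133116528, 666249900), (14613397118, 183309751), (2536932712, 16004180)],
    [(37562213544, 1980280518), (8402756386, 39587283)]])
    (l1 := [(0, 3060328628, 1315657683), (0, 1736148689, 1227410350), (0, 2082456822, 1557848129), (0, 2144049520, 1583001028), (0, 846173251, 637224738), (0, 3725750137, 2819814848)])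
    (l2 := [(0, 10266935169, 4417522669), (0, 5154391206, 3664903317), (0, 5178909896, 3930851182), (0, 2092352334, 1573417452), (0, 827908670, 633106083), (0, 3646704644, 2801288019)])
    (V1 := V2)
    (V2 := V0)
    (U1 := V3)
    (U2 := V1)
    (x1 := (0, 6458004437, 961640181))
    (x2 := (0, 15842176977, 2216490780))
    (y1 := (0, 1585704411, 1213292561))
    (y2 := (0, 1554951071, 1205262382))
    (fun _ _ hT => ⟨⟨t1_2 hT, ⟨t2_15 hT, t2_16 hT⟩, ⟨t2_6 hT, t2_7 hT⟩, t2_17 hT, t2_8 hT,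
    ⟨t3_10 hT, t3_11 hT⟩, ⟨t3_4 hT, t3_5 hT⟩, ⟨t5_4 hT, t5_5 hT⟩, ⟨t4_4 hT, t4_5 hT⟩⟩,
    ⟨⟨t20_4 hT, t20_5 hT⟩, ⟨t21_4 hT, t21_5 hT⟩, ⟨t22_4 hT, t22_5 hT⟩, ⟨t23_4 hT, t23_5 hT⟩, ⟨t24_4 hT, t24_5 hT⟩, ⟨t25_4 hT, t25_5 hT⟩, trivial⟩,
    ⟨⟨t10_4 hT, t10_5 hT⟩, ⟨t11_4 hT, t11_5 hT⟩, ⟨t12_4 hT, t12_5 hT⟩, ⟨t13_4 hT, t13_5 hT⟩, ⟨t14_4 hT, t14_5 hT⟩, ⟨t15_4 hT, t15_5 hT⟩, trivial⟩,
    ⟨t26_4 hT, t26_5 hT, ⟨t27_4 hT, t27_5 hT⟩⟩, ⟨t16_4 hT, t16_5 hT, ⟨t17_4 hT, t17_5 hT⟩⟩,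
    ⟨t28_2 hT, ⟨t29_4 hT, t29_5 hT⟩⟩, ⟨t18_2 hT, ⟨t19_4 hT, t19_5 hT⟩⟩,
    ⟨⟨⟨⟨t6_4 hT, t6_5 hT⟩, ⟨t7_8 hT, t7_9 hT⟩, ⟨t8_12 hT, t8_13 hT⟩, ⟨t9_12 hT, t9_13 hT⟩, trivial⟩, by decide⟩,
    ⟨⟨⟨t7_10 hT, t7_11 hT⟩, ⟨t8_14 hT, t8_15 hT⟩, ⟨t9_14 hT, t9_15 hT⟩, trivial⟩, by decide⟩,
    ⟨⟨⟨t8_16 hT, t8_17 hT⟩, ⟨t9_16 hT, t9_17 hT⟩, trivial⟩, by decide⟩,
    trivial⟩⟩)
    (by decide +kernel)

theorem p964 : Cs F 0 9 6 4 true :=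
  bondF (D := D) (pk := true) (Mz := Mz) (Mk := Mk1) (κ := 361056911374) (ik := 3348297128600) (M := M) (Mb := M)
    (X := ⟨274724326408, (78589543164, 6755419837, 1782879175), (0, 79876140514, 35197719748), (14137091651, 157377957), (0, 4125594586),
    (73421601517, 2550686038, 717777068), (0, 167384026355, 82428306367), (8107061516, 300431030, 89381869), (0, 6077428438, 3143648510)⟩)
    (L := [[(13751127671, 688081745), (14945418176, 188986945), (4277070227, 65925543), (706657054, 4859941)],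
    [(40962118573, 2134572972), (13788881105, 173539336), (2546602759, 16010956)]])
    (l1 := [(3600264947, 870239792, 227097722), (4734788394, 312212604, 86638265), (4986838047, 273789526, 76102863), (1747860289, 90502241, 25146770), (663581259, 29480440, 8244441), (2669185004, 109949504, 31526147)])
    (l2 := [(0, 8556331397, 2083751597), (0, 3433341293, 1534827340), (0, 3771575283, 1860285617), (0, 4169941198, 2025600809), (0, 1710476872, 828144115), (0, 737347228, 367698030)])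
    (V1 := V6)
    (V2 := V4)
    (U1 := V7)
    (U2 := V5)
    (x1 := (10814107081, 2391010105, 580525856))
    (x2 := (0, 16934796266, 2281966484))
    (y1 := (3161810099, 120257043, 35085070))
    (y2 := (0, 1508195993, 770776796))
    (fun _ _ hT => ⟨⟨t30_0 hT, ⟨t31_6 hT, t31_7 hT⟩, ⟨t31_0 hT, t31_1 hT⟩, t31_8 hT, t31_2 hT,
    ⟨t32_4 hT, t32_5 hT⟩, ⟨t32_0 hT, t32_1 hT⟩, ⟨t34_0 hT, t34_1 hT⟩, ⟨t33_0 hT, t33_1 hT⟩⟩,
    ⟨⟨t49_0 hT, t49_1 hT⟩, ⟨t50_0 hT, t50_1 hT⟩, ⟨t51_0 hT, t51_1 hT⟩, ⟨t52_0 hT, t52_1 hT⟩, ⟨t53_0 hT, t53_1 hT⟩, ⟨t54_0 hT, t54_1 hT⟩, trivial⟩,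
    ⟨⟨t39_0 hT, t39_1 hT⟩, ⟨t40_0 hT, t40_1 hT⟩, ⟨t41_0 hT, t41_1 hT⟩, ⟨t42_0 hT, t42_1 hT⟩, ⟨t43_0 hT, t43_1 hT⟩, ⟨t44_0 hT, t44_1 hT⟩, trivial⟩,
    ⟨t55_0 hT, t55_1 hT, ⟨t56_0 hT, t56_1 hT⟩⟩, ⟨t45_0 hT, t45_1 hT, ⟨t46_0 hT, t46_1 hT⟩⟩,
    ⟨t57_0 hT, ⟨t58_0 hT, t58_1 hT⟩⟩, ⟨t47_0 hT, ⟨t48_0 hT, t48_1 hT⟩⟩,
    ⟨⟨⟨⟨t35_0 hT, t35_1 hT⟩, ⟨t36_0 hT, t36_1 hT⟩, ⟨t37_0 hT, t37_1 hT⟩, ⟨t38_0 hT, t38_1 hT⟩, trivial⟩, by decide⟩,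
    ⟨⟨⟨t36_2 hT, t36_3 hT⟩, ⟨t37_2 hT, t37_3 hT⟩, ⟨t38_2 hT, t38_3 hT⟩, trivial⟩, by decide⟩,
    trivial⟩⟩)
    (by decide +kernel)

theorem p074 : Cs F 0 0 7 4 true :=
  bondF (D := D) (pk := true) (Mz := Mz) (Mk := Mk1) (κ := 361056911374) (ik := 3348297128600) (M := M) (Mb := M)
    (X := ⟨274724326408, (78591512228, 20221804540, 3246297735), (0, 72431683149, 33531311804), (14137171847, 318501577), (0, 3965730767),
    (73421997051, 8913389673, 1570742671), (0, 155875684214, 80068435478), (8107107065, 1026383243, 180890757), (0, 5597679558, 3022559314)⟩)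
    (L := [[(13751127671, 688081745), (14945418176, 188986945), (4277070227, 65925543), (706657054, 4859941)],
    [(40962118573, 2134572972), (13788881105, 173539336), (2546602759, 16010956)]])
    (l1 := [(3600533388, 2583983866, 416375794), (4734857884, 992301976, 168192552), (4986898417, 871085691, 147883810), (1747880302, 288229356, 48877980), (663587572, 94992734, 16287730), (2669204301, 362255668, 62972748)])
    (l2 := [(0, 6982528692, 1956198338), (0, 2903696708, 1414664838), (0, 3389604953, 1779658146), (0, 3731407595, 1943494650), (0, 1529419284, 795202134), (0, 667293332, 353467850)])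
    (V1 := V6)
    (V2 := V4)
    (U1 := V7)
    (U2 := V5)
    (x1 := (10815070929, 6546284240, 985327098))
    (x2 := (0, 19454785489, 2155933679))
    (y1 := (3161828037, 402980610, 70934574))
    (y2 := (0, 1377450621, 741369035))
    (fun _ _ hT => ⟨⟨t30_1 hT, ⟨t31_9 hT, t31_10 hT⟩, ⟨t31_3 hT, t31_4 hT⟩, t31_11 hT, t31_5 hT,
    ⟨t32_6 hT, t32_7 hT⟩, ⟨t32_2 hT, t32_3 hT⟩, ⟨t34_2 hT, t34_3 hT⟩, ⟨t33_2 hT, t33_3 hT⟩⟩,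
    ⟨⟨t49_2 hT, t49_3 hT⟩, ⟨t50_2 hT, t50_3 hT⟩, ⟨t51_2 hT, t51_3 hT⟩, ⟨t52_2 hT, t52_3 hT⟩, ⟨t53_2 hT, t53_3 hT⟩, ⟨t54_2 hT, t54_3 hT⟩, trivial⟩,
    ⟨⟨t39_2 hT, t39_3 hT⟩, ⟨t40_2 hT, t40_3 hT⟩, ⟨t41_2 hT, t41_3 hT⟩, ⟨t42_2 hT, t42_3 hT⟩, ⟨t43_2 hT, t43_3 hT⟩, ⟨t44_2 hT, t44_3 hT⟩, trivial⟩,
    ⟨t55_2 hT, t55_3 hT, ⟨t56_2 hT, t56_3 hT⟩⟩, ⟨t45_2 hT, t45_3 hT, ⟨t46_2 hT, t46_3 hT⟩⟩,
    ⟨t57_1 hT, ⟨t58_2 hT, t58_3 hT⟩⟩, ⟨t47_1 hT, ⟨t48_2 hT, t48_3 hT⟩⟩,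
    ⟨⟨⟨⟨t35_2 hT, t35_3 hT⟩, ⟨t36_4 hT, t36_5 hT⟩, ⟨t37_4 hT, t37_5 hT⟩, ⟨t38_4 hT, t38_5 hT⟩, trivial⟩, by decide⟩,
    ⟨⟨⟨t36_6 hT, t36_7 hT⟩, ⟨t37_6 hT, t37_7 hT⟩, ⟨t38_6 hT, t38_7 hT⟩, trivial⟩, by decide⟩,
    trivial⟩⟩)
    (by decide +kernel)

theorem p784 : Cs F 0 7 8 4 true :=
  bondF (D := D) (pk := true) (Mz := Mz) (Mk := Mk2) (κ := 361067127741) (ik := 3348202388787) (M := M) (Mb := M)
    (X := ⟨273060275385, (0, 72431685857, 33531313368), (79188870635, 26013516978, 6476558211), (0, 3965730797), (14181228787, 637826907),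
    (0, 155875689239, 80068438022), (73636933345, 11140023982, 2908059703), (0, 5609905130, 3029160666), (8032590535, 1294344463, 357804696)⟩)
    (L := [[(2758007302, 139960330), (3756030766, 18674561), (3891736374, 50804827), (876935790, 13007624)],
    [(13492608025, 637482668), (14505365115, 183546948), (3307542938, 50295843)],
    [(37206668302, 1945591165), (9967869454, 124383886)]])
    (l1 := [(0, 6996447319, 1960159216), (0, 2909888354, 1417689895), (0, 3398330850, 1784253348), (0, 3742491065, 1949284634), (0, 1540840366, 801154247), (0, 689122375, 365031436)])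
    (l2 := [(3630086387, 3295722670, 823018107), (4688722775, 1258811621, 332522965), (4927817991, 1099993532, 291388579), (1694004553, 356371116, 94364229), (642245390, 116827808, 31386359), (2678239269, 462718686, 126033297)])
    (V1 := V10)
    (V2 := V8)
    (U1 := V11)
    (U2 := V9)
    (x1 := (0, 19161804253, 2123465941))
    (x2 := (10802233033, 8892914862, 1919394588))
    (y1 := (0, 1377458415, 741373264))
    (y2 := (2516450456, 408375998, 112725967))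
    (fun _ _ hT => ⟨⟨t59_0 hT, ⟨t60_3 hT, t60_4 hT⟩, ⟨t60_0 hT, t60_1 hT⟩, t60_5 hT, t60_2 hT,
    ⟨t61_2 hT, t61_3 hT⟩, ⟨t61_0 hT, t61_1 hT⟩, ⟨t63_0 hT, t63_1 hT⟩, ⟨t62_0 hT, t62_1 hT⟩⟩,
    ⟨⟨t78_0 hT, t78_1 hT⟩, ⟨t79_0 hT, t79_1 hT⟩, ⟨t80_0 hT, t80_1 hT⟩, ⟨t81_0 hT, t81_1 hT⟩, ⟨t82_0 hT, t82_1 hT⟩, ⟨t83_0 hT, t83_1 hT⟩, trivial⟩,
    ⟨⟨t68_0 hT, t68_1 hT⟩, ⟨t69_0 hT, t69_1 hT⟩, ⟨t70_0 hT, t70_1 hT⟩, ⟨t71_0 hT, t71_1 hT⟩, ⟨t72_0 hT, t72_1 hT⟩, ⟨t73_0 hT, t73_1 hT⟩, trivial⟩,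
    ⟨t84_0 hT, t84_1 hT, ⟨t85_0 hT, t85_1 hT⟩⟩, ⟨t74_0 hT, t74_1 hT, ⟨t75_0 hT, t75_1 hT⟩⟩,
    ⟨t86_0 hT, ⟨t87_0 hT, t87_1 hT⟩⟩, ⟨t76_0 hT, ⟨t77_0 hT, t77_1 hT⟩⟩,
    ⟨⟨⟨⟨t64_0 hT, t64_1 hT⟩, ⟨t65_0 hT, t65_1 hT⟩, ⟨t66_0 hT, t66_1 hT⟩, ⟨t67_0 hT, t67_1 hT⟩, trivial⟩, by decide⟩,
    ⟨⟨⟨t65_2 hT, t65_3 hT⟩, ⟨t66_2 hT, t66_3 hT⟩, ⟨t67_2 hT, t67_3 hT⟩, trivial⟩, by decide⟩,
    ⟨⟨⟨t66_4 hT, t66_5 hT⟩, ⟨t67_4 hT, t67_5 hT⟩, trivial⟩, by decide⟩,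
    trivial⟩⟩)
    (by decide +kernel)

theorem p334 : Cs F 1 3 3 4 false :=
  bondU (D := D) (pk := false) (Mz := Mz) (Mk := Mk3) (κ := 347531780404) (ik := 3478605088172) (Mc := Mc)
    (X := ⟨309585772570, (0, 38728620239, 27359066271), (0, 38778474980, 27398047252), (0, 3298410587), (0, 3300486713),
    (0, 85968201456, 65180668746), (0, 85968201456, 65180668747), (0, 2918937292, 2274599233), (0, 2918937292, 2274599233)⟩)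
    (L := [([(4435568994, 159561956), (5879069605, 209291596), (6019879632, 213314733), (2178257451, 69291504)], (21519372750, 927080242)),
    ([(19552497033, 786210931), (21138514144, 840306978), (7869479237, 277164131)], (75417424271, 3751316944)),
    ([(48563256546, 2307877916), (21951987927, 886312800)], (213644081469, 13264454638))])
    (l := [(0, 4007444016, 1838769992), (0, 2265865576, 1567433885), (0, 2673480832, 1926533423), (0, 2705173174, 1957777320), (0, 957645772, 697814804)])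
    (V := V12)
    (x := (0, 3504526628, 490306418))
    (y := (0, 9992391363, 7163167421))
    (c0 := (0, 58614509836, 40969918476))
    (u1 := (0, 7578582556, 5487622901))
    (u2 := (0, 7578582556, 5487622901))
    (fun _ _ hT => ⟨⟨t88_0 hT, ⟨t89_9 hT, t89_10 hT⟩, ⟨t89_0 hT, t89_1 hT⟩, t89_11 hT, t89_2 hT,
    ⟨t90_6 hT, t90_7 hT⟩, ⟨t90_0 hT, t90_1 hT⟩, ⟨t92_0 hT, t92_1 hT⟩, ⟨t91_0 hT, t91_1 hT⟩⟩,
    ⟨⟨t93_0 hT, t93_1 hT⟩, ⟨t94_0 hT, t94_1 hT⟩, ⟨t95_0 hT, t95_1 hT⟩, ⟨t96_0 hT, t96_1 hT⟩, ⟨t97_0 hT, t97_1 hT⟩, trivial⟩, ⟨t98_0 hT, t98_1 hT⟩,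
    ⟨t99_0 hT, t99_1 hT, ⟨t100_0 hT, t100_1 hT⟩⟩, ⟨t101_0 hT, t101_1 hT⟩, ⟨t103_0 hT, t103_1 hT⟩, ⟨t102_0 hT, t102_1 hT⟩,
    ⟨⟨⟨⟨t94_6 hT, t94_7 hT⟩, ⟨t95_6 hT, t95_7 hT⟩, ⟨t96_6 hT, t96_7 hT⟩, ⟨t97_6 hT, t97_7 hT⟩, trivial⟩, ⟨t98_6 hT, t98_7 hT⟩, by decide⟩,
    ⟨⟨⟨t95_8 hT, t95_9 hT⟩, ⟨t96_8 hT, t96_9 hT⟩, ⟨t97_8 hT, t97_9 hT⟩, trivial⟩, ⟨t98_8 hT, t98_9 hT⟩, by decide⟩,
    ⟨⟨⟨t96_10 hT, t96_11 hT⟩, ⟨t97_10 hT, t97_11 hT⟩, trivial⟩, ⟨t98_10 hT, t98_11 hT⟩, by decide⟩,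
    trivial⟩⟩)
    (by decide +kernel)

theorem p354 : Cs F 1 3 5 4 false :=
  bondU (D := D) (pk := false) (Mz := Mz) (Mk := Mk3) (κ := 347531780404) (ik := 3478605088172) (Mc := Mc)
    (X := ⟨309585772570, (0, 38728620239, 27359066271), (0, 40443334007, 27619950490), (0, 3298410587), (0, 3322500715),
    (0, 85968201456, 65180668746), (0, 88112080621, 65747320985), (0, 2918937292, 2274599233), (0, 2976140212, 2290717469)⟩)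
    (L := [([(4435568994, 159561956), (5879069605, 209291596), (6019879632, 213314733), (2178257451, 69291504)], (21519372750, 927080242)),
    ([(19552497033, 786210931), (21138514144, 840306978), (7869479237, 277164131)], (75417424271, 3751316944)),
    ([(48563256546, 2307877916), (21951987927, 886312800)], (213644081469, 13264454638))])
    (l := [(0, 4007444016, 1838769992), (0, 2265865576, 1567433885), (0, 2673480832, 1926533423), (0, 2705173174, 1957777320), (0, 957645772, 697814804)])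
    (V := V12)
    (x := (0, 3504526628, 490306418))
    (y := (0, 9992391363, 7163167421))
    (c0 := (0, 61067165257, 41223774863))
    (u1 := (0, 7578582556, 5487622901))
    (u2 := (0, 7840143158, 5522503368))
    (fun _ _ hT => ⟨⟨t88_1 hT, ⟨t89_12 hT, t89_13 hT⟩, ⟨t89_3 hT, t89_4 hT⟩, t89_14 hT, t89_5 hT,
    ⟨t90_8 hT, t90_9 hT⟩, ⟨t90_2 hT, t90_3 hT⟩, ⟨t92_2 hT, t92_3 hT⟩, ⟨t91_2 hT, t91_3 hT⟩⟩,
    ⟨⟨t93_2 hT, t93_3 hT⟩, ⟨t94_2 hT, t94_3 hT⟩, ⟨t95_2 hT, t95_3 hT⟩, ⟨t96_2 hT, t96_3 hT⟩, ⟨t97_2 hT, t97_3 hT⟩, trivial⟩, ⟨t98_2 hT, t98_3 hT⟩,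
    ⟨t99_2 hT, t99_3 hT, ⟨t100_2 hT, t100_3 hT⟩⟩, ⟨t101_2 hT, t101_3 hT⟩, ⟨t103_2 hT, t103_3 hT⟩, ⟨t102_2 hT, t102_3 hT⟩,
    ⟨⟨⟨⟨t94_8 hT, t94_9 hT⟩, ⟨t95_10 hT, t95_11 hT⟩, ⟨t96_12 hT, t96_13 hT⟩, ⟨t97_12 hT, t97_13 hT⟩, trivial⟩, ⟨t98_12 hT, t98_13 hT⟩, by decide⟩,
    ⟨⟨⟨t95_12 hT, t95_13 hT⟩, ⟨t96_14 hT, t96_15 hT⟩, ⟨t97_14 hT, t97_15 hT⟩, trivial⟩, ⟨t98_14 hT, t98_15 hT⟩, by decide⟩,
    ⟨⟨⟨t96_16 hT, t96_17 hT⟩, ⟨t97_16 hT, t97_17 hT⟩, trivial⟩, ⟨t98_16 hT, t98_17 hT⟩, by decide⟩,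
    trivial⟩⟩)
    (by decide +kernel)

theorem p534 : Cs F 1 5 3 4 false :=
  bondU (D := D) (pk := false) (Mz := Mz) (Mk := Mk3) (κ := 347531780404) (ik := 3478605088172) (Mc := Mc)
    (X := ⟨309585772570, (0, 40390082543, 27580598879), (0, 38778474980, 27398047252), (0, 3320407380), (0, 3300486713),
    (0, 88112080621, 65747320985), (0, 85968201456, 65180668747), (0, 2976140212, 2290717469), (0, 2918937292, 2274599233)⟩)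
    (L := [([(4479022408, 160556145), (5927699795, 210401600), (6068786997, 214428784), (2195222840, 69651797)], (21706102254, 931878447)),
    ([(19552497033, 786210931), (21138514144, 840306978), (7869479237, 277164131)], (75417424271, 3751316944)),
    ([(48563256546, 2307877916), (21951987927, 886312800)], (213644081469, 13264454638))])
    (l := [(0, 3738700635, 1704725697), (0, 2311451906, 1566432987), (0, 2759528900, 1936987911), (0, 2795605182, 1969610109), (0, 988678703, 702175161)])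
    (V := V12)
    (x := (0, 3424874676, 509983063))
    (y := (0, 10358267684, 7208362102))
    (c0 := (0, 58614509836, 40969918476))
    (u1 := (0, 7840143158, 5522503368))
    (u2 := (0, 7578582556, 5487622901))
    (fun _ _ hT => ⟨⟨t88_2 hT, ⟨t89_15 hT, t89_16 hT⟩, ⟨t89_6 hT, t89_7 hT⟩, t89_17 hT, t89_8 hT,
    ⟨t90_10 hT, t90_11 hT⟩, ⟨t90_4 hT, t90_5 hT⟩, ⟨t92_4 hT, t92_5 hT⟩, ⟨t91_4 hT, t91_5 hT⟩⟩,
    ⟨⟨t93_4 hT, t93_5 hT⟩, ⟨t94_4 hT, t94_5 hT⟩, ⟨t95_4 hT, t95_5 hT⟩, ⟨t96_4 hT, t96_5 hT⟩, ⟨t97_4 hT, t97_5 hT⟩, trivial⟩, ⟨t98_4 hT, t98_5 hT⟩,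
    ⟨t99_4 hT, t99_5 hT, ⟨t100_4 hT, t100_5 hT⟩⟩, ⟨t101_4 hT, t101_5 hT⟩, ⟨t103_4 hT, t103_5 hT⟩, ⟨t102_4 hT, t102_5 hT⟩,
    ⟨⟨⟨⟨t94_10 hT, t94_11 hT⟩, ⟨t95_14 hT, t95_15 hT⟩, ⟨t96_18 hT, t96_19 hT⟩, ⟨t97_18 hT, t97_19 hT⟩, trivial⟩, ⟨t98_18 hT, t98_19 hT⟩, by decide⟩,
    ⟨⟨⟨t95_16 hT, t95_17 hT⟩, ⟨t96_20 hT, t96_21 hT⟩, ⟨t97_20 hT, t97_21 hT⟩, trivial⟩, ⟨t98_20 hT, t98_21 hT⟩, by decide⟩,
    ⟨⟨⟨t96_22 hT, t96_23 hT⟩, ⟨t97_22 hT, t97_23 hT⟩, trivial⟩, ⟨t98_22 hT, t98_23 hT⟩, by decide⟩,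
    trivial⟩⟩)
    (by decide +kernel)

theorem p965 : Cs F 0 9 6 5 false :=
  bondU (D := D) (pk := false) (Mz := Mz) (Mk := Mk4) (κ := 361071381575) (ik := 3348162943132) (Mc := Mc)
    (X := ⟨277740239643, (78586983676, 6755290604, 1782842306), (0, 23247531652, 10665482234), (14137004748, 157376863), (0, 916086636),
    (73426714641, 2550875366, 717830344), (0, 167405146349, 82438453833), (7515921760, 278520311, 82863030), (0, 1618128277, 836985314)⟩)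
    (L := [([(16917230922, 699790644), (18299274654, 747329614), (6461846991, 231000824)], (48394029713, 2348529219)),
    ([(45317673057, 2185762790), (19431626047, 785636655)], (150021673662, 8830357987))])
    (l := [(4605198484, 975783611, 259973072), (5762498662, 463597330, 124283729), (5849043548, 403441568, 108279728), (1994085048, 125118900, 33775069)])
    (V := V13)
    (x := (8416545837, 1860043434, 451675170))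
    (y := (15392690182, 1033078423, 275654382))
    (c0 := (0, 33535823999, 14796472880))
    (u1 := (6244067709, 375534084, 101589275))
    (u2 := (0, 11890539451, 5397612410))
    (fun _ _ hT => ⟨⟨t104_0 hT, ⟨t105_6 hT, t105_7 hT⟩, ⟨t105_0 hT, t105_1 hT⟩, t105_8 hT, t105_2 hT,
    ⟨t106_4 hT, t106_5 hT⟩, ⟨t106_0 hT, t106_1 hT⟩, ⟨t108_0 hT, t108_1 hT⟩, ⟨t107_0 hT, t107_1 hT⟩⟩,
    ⟨⟨t109_0 hT, t109_1 hT⟩, ⟨t110_0 hT, t110_1 hT⟩, ⟨t111_0 hT, t111_1 hT⟩, ⟨t112_0 hT, t112_1 hT⟩, trivial⟩, ⟨t113_0 hT, t113_1 hT⟩,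
    ⟨t114_0 hT, t114_1 hT, ⟨t115_0 hT, t115_1 hT⟩⟩, ⟨t116_0 hT, t116_1 hT⟩, ⟨t118_0 hT, t118_1 hT⟩, ⟨t117_0 hT, t117_1 hT⟩,
    ⟨⟨⟨⟨t110_4 hT, t110_5 hT⟩, ⟨t111_4 hT, t111_5 hT⟩, ⟨t112_4 hT, t112_5 hT⟩, trivial⟩, ⟨t113_4 hT, t113_5 hT⟩, by decide⟩,
    ⟨⟨⟨t111_6 hT, t111_7 hT⟩, ⟨t112_6 hT, t112_7 hT⟩, trivial⟩, ⟨t113_6 hT, t113_7 hT⟩, by decide⟩,
    trivial⟩⟩)
    (by decide +kernel)

theorem p075 : Cs F 0 0 7 5 false :=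
  bondU (D := D) (pk := false) (Mz := Mz) (Mk := Mk4) (κ := 361071381575) (ik := 3348162943132) (Mc := Mc)
    (X := ⟨277740239643, (78588952715, 20221382852, 3246225631), (0, 20570952150, 10185486041), (14137084944, 318499364), (0, 880575132),
    (73427110204, 8914051313, 1570859259), (0, 155895037332, 80078181274), (7515963987, 951529100, 167697925), (0, 1490414121, 804745929)⟩)
    (L := [([(16917230922, 699790644), (18299274654, 747329614), (6461846991, 231000824)], (48394029713, 2348529219)),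
    ([(45317673057, 2185762790), (19431626047, 785636655)], (150021673662, 8830357987))])
    (l := [(4605471860, 2963742886, 486194005), (5762624560, 1417874324, 233803985), (5849152564, 1234760290, 203843508), (1994117856, 385675485, 63950240)])
    (V := V13)
    (x := (8417295305, 5093486377, 766766022))
    (y := (15392977843, 3139778119, 515926351))
    (c0 := (0, 30082201383, 14186720233))
    (u1 := (6244165084, 1158996931, 192608972))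
    (u2 := (0, 10474913430, 5178613233))
    (fun _ _ hT => ⟨⟨t104_1 hT, ⟨t105_9 hT, t105_10 hT⟩, ⟨t105_3 hT, t105_4 hT⟩, t105_11 hT, t105_5 hT,
    ⟨t106_6 hT, t106_7 hT⟩, ⟨t106_2 hT, t106_3 hT⟩, ⟨t108_2 hT, t108_3 hT⟩, ⟨t107_2 hT, t107_3 hT⟩⟩,
    ⟨⟨t109_2 hT, t109_3 hT⟩, ⟨t110_2 hT, t110_3 hT⟩, ⟨t111_2 hT, t111_3 hT⟩, ⟨t112_2 hT, t112_3 hT⟩, trivial⟩, ⟨t113_2 hT, t113_3 hT⟩,
    ⟨t114_2 hT, t114_3 hT, ⟨t115_2 hT, t115_3 hT⟩⟩, ⟨t116_2 hT, t116_3 hT⟩, ⟨t118_2 hT, t118_3 hT⟩, ⟨t117_2 hT, t117_3 hT⟩,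
    ⟨⟨⟨⟨t110_6 hT, t110_7 hT⟩, ⟨t111_8 hT, t111_9 hT⟩, ⟨t112_8 hT, t112_9 hT⟩, trivial⟩, ⟨t113_8 hT, t113_9 hT⟩, by decide⟩,
    ⟨⟨⟨t111_10 hT, t111_11 hT⟩, ⟨t112_10 hT, t112_11 hT⟩, trivial⟩, ⟨t113_10 hT, t113_11 hT⟩, by decide⟩,
    trivial⟩⟩)
    (by decide +kernel)

theorem p785 : Cs F 0 7 8 5 false :=
  bondU (D := D) (pk := false) (Mz := Mz) (Mk := Mk5) (κ := 361083001854) (ik := 3348055193425) (Mc := Mc)
    (X := ⟨292567589135, (0, 72431471657, 33531192635), (25819216350, 7116697924, 1808098339), (0, 3965727189), (3148640192, 142060888),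
    (0, 155895037332, 80078181274), (73643923910, 11141149419, 2908353443), (0, 4774124486, 2577868644), (2186403655, 352635102, 97471908)⟩)
    (L := [([(4202426822, 152184516), (5533969541, 198544618), (5616009612, 200815238), (1810907185, 58082817)], (12131715699, 511782028)),
    ([(18102064244, 738921242), (19399468014, 783818874), (6441820305, 230176400)], (41953248734, 2051673581)),
    ([(44421875117, 2154775015), (17919235601, 735745948)], (119171405559, 7248406367))])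
    (l := [(0, 8159942754, 2571025075), (0, 3819718612, 1811621950), (0, 4386700399, 2181529629), (0, 4389853549, 2194334415), (0, 1380689939, 696028906)])
    (V := V14)
    (x := (0, 10908865986, 1208890669))
    (y := (0, 9903716196, 4834205991))
    (c0 := (38688818211, 10875624787, 2751879286))
    (u1 := (0, 10579556599, 5232301691))
    (u2 := (5761201825, 1369054373, 354186392))
    (fun _ _ hT => ⟨⟨t119_0 hT, ⟨t120_3 hT, t120_4 hT⟩, ⟨t120_0 hT, t120_1 hT⟩, t120_5 hT, t120_2 hT,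
    ⟨t121_2 hT, t121_3 hT⟩, ⟨t121_0 hT, t121_1 hT⟩, ⟨t123_0 hT, t123_1 hT⟩, ⟨t122_0 hT, t122_1 hT⟩⟩,
    ⟨⟨t124_0 hT, t124_1 hT⟩, ⟨t125_0 hT, t125_1 hT⟩, ⟨t126_0 hT, t126_1 hT⟩, ⟨t127_0 hT, t127_1 hT⟩, ⟨t128_0 hT, t128_1 hT⟩, trivial⟩, ⟨t129_0 hT, t129_1 hT⟩,
    ⟨t130_0 hT, t130_1 hT, ⟨t131_0 hT, t131_1 hT⟩⟩, ⟨t132_0 hT, t132_1 hT⟩, ⟨t134_0 hT, t134_1 hT⟩, ⟨t133_0 hT, t133_1 hT⟩,
    ⟨⟨⟨⟨t125_2 hT, t125_3 hT⟩, ⟨t126_2 hT, t126_3 hT⟩, ⟨t127_2 hT, t127_3 hT⟩, ⟨t128_2 hT, t128_3 hT⟩, trivial⟩, ⟨t129_2 hT, t129_3 hT⟩, by decide⟩,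
    ⟨⟨⟨t126_4 hT, t126_5 hT⟩, ⟨t127_4 hT, t127_5 hT⟩, ⟨t128_4 hT, t128_5 hT⟩, trivial⟩, ⟨t129_4 hT, t129_5 hT⟩, by decide⟩,
    ⟨⟨⟨t127_6 hT, t127_7 hT⟩, ⟨t128_6 hT, t128_7 hT⟩, trivial⟩, ⟨t129_6 hT, t129_7 hT⟩, by decide⟩,
    trivial⟩⟩)
    (by decide +kernel)

theorem c0 : Cs F 1 3 3 3 false := (Cs.split p333 p334)

theorem c1 : Cs F 1 3 5 3 false := (Cs.split p353 p354)

theorem c2 : Cs F 1 5 3 3 false := (Cs.split p533 p534)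

theorem c3 : Cs F 0 9 6 4 false := (Cs.split p964 p965)

theorem c4 : Cs F 0 0 7 4 false := (Cs.split p074 p075)

theorem c5 : Cs F 0 7 8 4 false := (Cs.split p784 p785)


end Pool.Agent.P.MP_e4ac67_pr.Gr.B2
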