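import Pool.Agent.P.MP_e4ac67_pr.D.B2Dwx

namespace Pool.Agent.P.MP_e4ac67_pr.Gr.B2

theorem bwx : Base wx Awx Rwx true :=
  ⟨kwx, ACert.ok_of (by decide +kernel) (by decide +kernel) (by decide +kernel) (by decide +kernel) (by decide +kernel) (by decide +kernel),
    fun _ => RCert.ok_of (by decide +kernel)⟩

theorem hY0u : Awx.chkY wx 0 NN NN 1099511627776 Y0u = true := by decide +kernel

theorem hY0c : Awx.chkY wx 0 F.N.iv F.N.il 1261143527570 Y0c = true := by decide +kernel

theorem hY2u : Awx.chkY wx 2 NN NN 1099511627776 Y2u = true := by decide +kernel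

theorem hY2c : Awx.chkY wx 2 F.N.iv F.N.il 1261143527570 Y2c = true := by decide +kernel


end Pool.Agent.P.MP_e4ac67_pr.Gr.B2
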