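import Pool.Agent.P.MP_e4ac67_pr.D.B3T0
import Pool.Agent.P.MP_e4ac67_pr.D.B3T1
import Pool.Agent.P.MP_e4ac67_pr.D.B3T2
import Pool.Agent.P.MP_e4ac67_pr.D.B3T3
import Pool.Agent.P.MP_e4ac67_pr.D.B3T4
import Pool.Agent.P.MP_e4ac67_pr.D.B3T5
import Pool.Agent.P.MP_e4ac67_pr.D.B3T6
import Pool.Agent.P.MP_e4ac67_pr.D.B3T7
import Pool.Agent.P.MP_e4ac67_pr.D.B3T8
import Pool.Agent.P.MP_e4ac67_pr.D.B3T9
import Pool.Agent.P.MP_e4ac67_pr.D.B3T10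
import Pool.Agent.P.MP_e4ac67_pr.D.B3T11
import Pool.Agent.P.MP_e4ac67_pr.D.B3T12
import Pool.Agent.P.MP_e4ac67_pr.D.B3T13
import Pool.Agent.P.MP_e4ac67_pr.D.B3T14
import Pool.Agent.P.MP_e4ac67_pr.D.B3T15
import Pool.Agent.P.MP_e4ac67_pr.D.B3T16
import Pool.Agent.P.MP_e4ac67_pr.D.B3T17
import Pool.Agent.P.MP_e4ac67_pr.D.B3T18
import Pool.Agent.P.MP_e4ac67_pr.D.B3T19

namespace Pool.Agent.P.MP_e4ac67_pr.Gr.B3

theorem p333 : Cs F 1 3 3 3 true :=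
  bondF (D := D) (pk := true) (Mz := Mz) (Mk := Mk0) (κ := 352888600705) (ik := 3425800145427) (M := M) (Mb := M)
    (X := ⟨295942920094, (0, 39815731132, 28664458023), (0, 130481178057, 88675249773), (0, 3230947507), (0, 14874258427),
    (0, 86572851919, 65532902757), (0, 86572851926, 65532902762), (0, 4006800547, 3141437811), (0, 11872742886, 9308764931)⟩)
    (L := [[(3454743086, 172319428), (4634269314, 21224698), (4614973346, 56692190), (782732292, 4590287)],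
    [(16635974347, 760209667), (17186650270, 206052228), (3037662074, 17707073)],
    [(43491685318, 2225094978), (9896126151, 44619494)]])
    (l1 := [(0, 3923139844, 1786246677), (0, 2115450992, 1524915176), (0, 2474273903, 1896363116), (0, 2533774876, 1925571198), (0, 1032046913, 796562961), (0, 4533125322, 3510116530)])
    (l2 := [(0, 11908534006, 5395761619), (0, 6193880010, 4462200980), (0, 6203470662, 4755331321), (0, 2533774876, 1925571198), (0, 1032046913, 796562961), (0, 4533125322, 3510116530)])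
    (V1 := V2)
    (V2 := V0)
    (U1 := V3)
    (U2 := V1)
    (x1 := (0, 7448774440, 1142944228))
    (x2 := (0, 17500203797, 2685264264))
    (y1 := (0, 1952561580, 1524805519))
    (y2 := (0, 1952561580, 1524805519))
    (fun _ _ hT => ⟨⟨t1_0 hT, ⟨t2_9 hT, t2_10 hT⟩, ⟨t2_0 hT, t2_1 hT⟩, t2_11 hT, t2_2 hT,
    ⟨t3_6 hT, t3_7 hT⟩, ⟨t3_0 hT, t3_1 hT⟩, ⟨t5_0 hT, t5_1 hT⟩, ⟨t4_0 hT, t4_1 hT⟩⟩,
    ⟨⟨t20_0 hT, t20_1 hT⟩, ⟨t21_0 hT, t21_1 hT⟩, ⟨t22_0 hT, t22_1 hT⟩, ⟨t23_0 hT, t23_1 hT⟩, ⟨t24_0 hT, t24_1 hT⟩, ⟨t25_0 hT, t25_1 hT⟩, trivial⟩,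
    ⟨⟨t10_0 hT, t10_1 hT⟩, ⟨t11_0 hT, t11_1 hT⟩, ⟨t12_0 hT, t12_1 hT⟩, ⟨t13_0 hT, t13_1 hT⟩, ⟨t14_0 hT, t14_1 hT⟩, ⟨t15_0 hT, t15_1 hT⟩, trivial⟩,
    ⟨t26_0 hT, t26_1 hT, ⟨t27_0 hT, t27_1 hT⟩⟩, ⟨t16_0 hT, t16_1 hT, ⟨t17_0 hT, t17_1 hT⟩⟩,
    ⟨t28_0 hT, ⟨t29_0 hT, t29_1 hT⟩⟩, ⟨t18_0 hT, ⟨t19_0 hT, t19_1 hT⟩⟩,
    ⟨⟨⟨⟨t6_0 hT, t6_1 hT⟩, ⟨t7_0 hT, t7_1 hT⟩, ⟨t8_0 hT, t8_1 hT⟩, ⟨t9_0 hT, t9_1 hT⟩, trivial⟩, by decide⟩,
    ⟨⟨⟨t7_2 hT, t7_3 hT⟩, ⟨t8_2 hT, t8_3 hT⟩, ⟨t9_2 hT, t9_3 hT⟩, trivial⟩, by decide⟩,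
    ⟨⟨⟨t8_4 hT, t8_5 hT⟩, ⟨t9_4 hT, t9_5 hT⟩, trivial⟩, by decide⟩,
    trivial⟩⟩)
    (by decide +kernel)

theorem p353 : Cs F 1 3 5 3 true :=
  bondF (D := D) (pk := true) (Mz := Mz) (Mk := Mk0) (κ := 352888600705) (ik := 3425800145427) (M := M) (Mb := M)
    (X := ⟨295942920094, (0, 39815731132, 28664458023), (0, 134724984919, 89689277978), (0, 3230947507), (0, 15002253642),
    (0, 86572851919, 65532902757), (0, 88240882073, 66243909601), (0, 4006800547, 3141437811), (0, 12044327183, 9393627215)⟩)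
    (L := [[(3454743086, 172319428), (4634269314, 21224698), (4614973346, 56692190), (782732292, 4590287)],
    [(16635974347, 760209667), (17186650270, 206052228), (3037662074, 17707073)],
    [(43491685318, 2225094978), (9896126151, 44619494)]])
    (l1 := [(0, 3923139844, 1786246677), (0, 2115450992, 1524915176), (0, 2474273903, 1896363116), (0, 2533774876, 1925571198), (0, 1032046913, 796562961), (0, 4533125322, 3510116530)])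
    (l2 := [(0, 11092587832, 5008875788), (0, 6184264262, 4456022957), (0, 6293188942, 4791189809), (0, 2583921847, 1941760867), (0, 1049428020, 803470672), (0, 4607783934, 3540767076)])
    (V1 := V2)
    (V2 := V0)
    (U1 := V3)
    (U2 := V1)
    (x1 := (0, 7448774440, 1142944228))
    (x2 := (0, 17336477983, 2826106206))
    (y1 := (0, 1952561580, 1524805519))
    (y2 := (0, 1980720048, 1538126993))
    (fun _ _ hT => ⟨⟨t1_1 hT, ⟨t2_12 hT, t2_13 hT⟩, ⟨t2_3 hT, t2_4 hT⟩, t2_14 hT, t2_5 hT,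
    ⟨t3_8 hT, t3_9 hT⟩, ⟨t3_2 hT, t3_3 hT⟩, ⟨t5_2 hT, t5_3 hT⟩, ⟨t4_2 hT, t4_3 hT⟩⟩,
    ⟨⟨t20_2 hT, t20_3 hT⟩, ⟨t21_2 hT, t21_3 hT⟩, ⟨t22_2 hT, t22_3 hT⟩, ⟨t23_2 hT, t23_3 hT⟩, ⟨t24_2 hT, t24_3 hT⟩, ⟨t25_2 hT, t25_3 hT⟩, trivial⟩,
    ⟨⟨t10_2 hT, t10_3 hT⟩, ⟨t11_2 hT, t11_3 hT⟩, ⟨t12_2 hT, t12_3 hT⟩, ⟨t13_2 hT, t13_3 hT⟩, ⟨t14_2 hT, t14_3 hT⟩, ⟨t15_2 hT, t15_3 hT⟩, trivial⟩,
    ⟨t26_2 hT, t26_3 hT, ⟨t27_2 hT, t27_3 hT⟩⟩, ⟨t16_2 hT, t16_3 hT, ⟨t17_2 hT, t17_3 hT⟩⟩,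
    ⟨t28_1 hT, ⟨t29_2 hT, t29_3 hT⟩⟩, ⟨t18_1 hT, ⟨t19_2 hT, t19_3 hT⟩⟩,
    ⟨⟨⟨⟨t6_2 hT, t6_3 hT⟩, ⟨t7_4 hT, t7_5 hT⟩, ⟨t8_6 hT, t8_7 hT⟩, ⟨t9_6 hT, t9_7 hT⟩, trivial⟩, by decide⟩,
    ⟨⟨⟨t7_6 hT, t7_7 hT⟩, ⟨t8_8 hT, t8_9 hT⟩, ⟨t9_8 hT, t9_9 hT⟩, trivial⟩, by decide⟩,
    ⟨⟨⟨t8_10 hT, t8_11 hT⟩, ⟨t9_10 hT, t9_11 hT⟩, trivial⟩, by decide⟩,
    trivial⟩⟩)
    (by decide +kernel)

theorem p533 : Cs F 1 5 3 3 true :=
  bondF (D := D) (pk := true) (Mz := Mz) (Mk := Mk0) (κ := 352888600705) (ik := 3425800145427) (M := M) (Mb := M)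
    (X := ⟨295942920094, (0, 41436639874, 28970770212), (0, 130481178057, 88675249773), (0, 3258688400), (0, 14874258427),
    (0, 88240882068, 66243909597), (0, 86572851926, 65532902762), (0, 4064663626, 3170065670), (0, 11872742886, 9308764931)⟩)
    (L := [[(3483580297, 172601194), (4663804898, 21377560), (4646734548, 57022786), (787609256, 4616894)],
    [(16635974347, 760209667), (17186650270, 206052228), (3037662074, 17707073)],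
    [(43491685318, 2225094978), (9896126151, 44619494)]])
    (l1 := [(0, 3662323663, 1658737712), (0, 2111929820, 1522893963), (0, 2509916216, 1910638080), (0, 2583921847, 1941760867), (0, 1049428020, 803470672), (0, 4607783934, 3540767076)])
    (l2 := [(0, 11908534006, 5395761619), (0, 6193880010, 4462200980), (0, 6203470662, 4755331321), (0, 2533774876, 1925571198), (0, 1032046913, 796562961), (0, 4533125322, 3510116530)])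
    (V1 := V2)
    (V2 := V0)
    (U1 := V3)
    (U2 := V1)
    (x1 := (0, 7378985289, 1202881096))
    (x2 := (0, 17500203797, 2685264264))
    (y1 := (0, 1980720048, 1538126993))
    (y2 := (0, 1952561580, 1524805519))
    (fun _ _ hT => ⟨⟨t1_2 hT, ⟨t2_15 hT, t2_16 hT⟩, ⟨t2_6 hT, t2_7 hT⟩, t2_17 hT, t2_8 hT,
    ⟨t3_10 hT, t3_11 hT⟩, ⟨t3_4 hT, t3_5 hT⟩, ⟨t5_4 hT, t5_5 hT⟩, ⟨t4_4 hT, t4_5 hT⟩⟩,
    ⟨⟨t20_4 hT, t20_5 hT⟩, ⟨t21_4 hT, t21_5 hT⟩, ⟨t22_4 hT, t22_5 hT⟩, ⟨t23_4 hT, t23_5 hT⟩, ⟨t24_4 hT, t24_5 hT⟩, ⟨t25_4 hT, t25_5 hT⟩, trivial⟩,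
    ⟨⟨t10_4 hT, t10_5 hT⟩, ⟨t11_4 hT, t11_5 hT⟩, ⟨t12_4 hT, t12_5 hT⟩, ⟨t13_4 hT, t13_5 hT⟩, ⟨t14_4 hT, t14_5 hT⟩, ⟨t15_4 hT, t15_5 hT⟩, trivial⟩,
    ⟨t26_4 hT, t26_5 hT, ⟨t27_4 hT, t27_5 hT⟩⟩, ⟨t16_4 hT, t16_5 hT, ⟨t17_4 hT, t17_5 hT⟩⟩,
    ⟨t28_2 hT, ⟨t29_4 hT, t29_5 hT⟩⟩, ⟨t18_2 hT, ⟨t19_4 hT, t19_5 hT⟩⟩,
    ⟨⟨⟨⟨t6_4 hT, t6_5 hT⟩, ⟨t7_8 hT, t7_9 hT⟩, ⟨t8_12 hT, t8_13 hT⟩, ⟨t9_12 hT, t9_13 hT⟩, trivial⟩, by decide⟩,
    ⟨⟨⟨t7_10 hT, t7_11 hT⟩, ⟨t8_14 hT, t8_15 hT⟩, ⟨t9_14 hT, t9_15 hT⟩, trivial⟩, by decide⟩,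
    ⟨⟨⟨t8_16 hT, t8_17 hT⟩, ⟨t9_16 hT, t9_17 hT⟩, trivial⟩, by decide⟩,
    trivial⟩⟩)
    (by decide +kernel)

theorem p964 : Cs F 0 9 6 4 true :=
  bondF (D := D) (pk := true) (Mz := Mz) (Mk := Mk1) (κ := 367322061214) (ik := 3291187617807) (M := M) (Mb := M)
    (X := ⟨282907388049, (81615148173, 6964851803, 1973397671), (0, 80095838867, 37155349375), (14028367991, 171776514), (0, 4077154415),
    (76351862254, 2688076207, 804861848), (0, 165855596261, 84094865630), (9038807733, 341606682, 109210082), (0, 6739083573, 3630135868)⟩)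
    (L := [[(16108882661, 783859572), (17501502787, 210373391), (5042528599, 72510356), (859202518, 5343711)],
    [(47444801010, 2400828718), (16186955298, 194865233), (3048859213, 17710764)]])
    (l1 := [(4347581084, 1028319495, 290197700), (5643808540, 358085680, 107668770), (5948338987, 318098408, 95783470), (2107121657, 107352122, 32314660), (829709931, 36637833, 11127783), (3334911113, 138974320, 43064098)])
    (l2 := [(0, 9912678020, 2617619248), (0, 4059063333, 1909062695), (0, 4394244945, 2273363251), (0, 4855377056, 2474521984), (0, 1994426184, 1013435051), (0, 887034603, 463461472)])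
    (V1 := V6)
    (V2 := V4)
    (U1 := V7)
    (U2 := V5)
    (x1 := (12648805352, 2826435298, 743443445))
    (x2 := (0, 18877512813, 2790159261))
    (y1 := (3912538614, 150836554, 47509770))
    (y2 := (0, 1860793896, 993656513))
    (fun _ _ hT => ⟨⟨t30_0 hT, ⟨t31_6 hT, t31_7 hT⟩, ⟨t31_0 hT, t31_1 hT⟩, t31_8 hT, t31_2 hT,
    ⟨t32_4 hT, t32_5 hT⟩, ⟨t32_0 hT, t32_1 hT⟩, ⟨t34_0 hT, t34_1 hT⟩, ⟨t33_0 hT, t33_1 hT⟩⟩,
    ⟨⟨t49_0 hT, t49_1 hT⟩, ⟨t50_0 hT, t50_1 hT⟩, ⟨t51_0 hT, t51_1 hT⟩, ⟨t52_0 hT, t52_1 hT⟩, ⟨t53_0 hT, t53_1 hT⟩, ⟨t54_0 hT, t54_1 hT⟩, trivial⟩,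
    ⟨⟨t39_0 hT, t39_1 hT⟩, ⟨t40_0 hT, t40_1 hT⟩, ⟨t41_0 hT, t41_1 hT⟩, ⟨t42_0 hT, t42_1 hT⟩, ⟨t43_0 hT, t43_1 hT⟩, ⟨t44_0 hT, t44_1 hT⟩, trivial⟩,
    ⟨t55_0 hT, t55_1 hT, ⟨t56_0 hT, t56_1 hT⟩⟩, ⟨t45_0 hT, t45_1 hT, ⟨t46_0 hT, t46_1 hT⟩⟩,
    ⟨t57_0 hT, ⟨t58_0 hT, t58_1 hT⟩⟩, ⟨t47_0 hT, ⟨t48_0 hT, t48_1 hT⟩⟩,
    ⟨⟨⟨⟨t35_0 hT, t35_1 hT⟩, ⟨t36_0 hT, t36_1 hT⟩, ⟨t37_0 hT, t37_1 hT⟩, ⟨t38_0 hT, t38_1 hT⟩, trivial⟩, by decide⟩,
    ⟨⟨⟨t36_2 hT, t36_3 hT⟩, ⟨t37_2 hT, t37_3 hT⟩, ⟨t38_2 hT, t38_3 hT⟩, trivial⟩, by decide⟩,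
    trivial⟩⟩)
    (by decide +kernel)

theorem p074 : Cs F 0 0 7 4 true :=
  bondF (D := D) (pk := true) (Mz := Mz) (Mk := Mk1) (κ := 367322061214) (ik := 3291187617807) (M := M) (Mb := M)
    (X := ⟨282907388049, (81617658950, 20794361205, 3539719807), (0, 71825770948, 35170401159), (14028467552, 341050638), (0, 3896907140),
    (76352374994, 9435206803, 1756126077), (0, 157246460116, 81285041782), (9038871031, 1164760705, 216828864), (0, 6309708159, 3470900018)⟩)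
    (L := [[(16108882661, 783859572), (17501502787, 210373391), (5042528599, 72510356), (859202518, 5343711)],
    [(47444801010, 2400828718), (16186955298, 194865233), (3048859213, 17710764)]])
    (l1 := [(4347976550, 3058321617, 522556187), (5643905469, 1144511385, 205756263), (5948424324, 1017798401, 183214823), (2107150532, 343725088, 61824756), (829719301, 119008498, 21641988), (3334940966, 459656239, 84498161)])
    (l2 := [(0, 8052244817, 2429088736), (0, 3492351152, 1744698363), (0, 4026710410, 2162240121), (0, 4432365117, 2361180360), (0, 1819527803, 967764829), (0, 818643205, 443043572)])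
    (V1 := V6)
    (V2 := V4)
    (U1 := V7)
    (U2 := V5)
    (x1 := (12650227005, 7751673036, 1241087280))
    (x2 := (0, 21384766597, 2615501042))
    (y1 := (3912566255, 507184109, 94314745))
    (y2 := (0, 1731927642, 950388057))
    (fun _ _ hT => ⟨⟨t30_1 hT, ⟨t31_9 hT, t31_10 hT⟩, ⟨t31_3 hT, t31_4 hT⟩, t31_11 hT, t31_5 hT,
    ⟨t32_6 hT, t32_7 hT⟩, ⟨t32_2 hT, t32_3 hT⟩, ⟨t34_2 hT, t34_3 hT⟩, ⟨t33_2 hT, t33_3 hT⟩⟩,
    ⟨⟨t49_2 hT, t49_3 hT⟩, ⟨t50_2 hT, t50_3 hT⟩, ⟨t51_2 hT, t51_3 hT⟩, ⟨t52_2 hT, t52_3 hT⟩, ⟨t53_2 hT, t53_3 hT⟩, ⟨t54_2 hT, t54_3 hT⟩, trivial⟩,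
    ⟨⟨t39_2 hT, t39_3 hT⟩, ⟨t40_2 hT, t40_3 hT⟩, ⟨t41_2 hT, t41_3 hT⟩, ⟨t42_2 hT, t42_3 hT⟩, ⟨t43_2 hT, t43_3 hT⟩, ⟨t44_2 hT, t44_3 hT⟩, trivial⟩,
    ⟨t55_2 hT, t55_3 hT, ⟨t56_2 hT, t56_3 hT⟩⟩, ⟨t45_2 hT, t45_3 hT, ⟨t46_2 hT, t46_3 hT⟩⟩,
    ⟨t57_1 hT, ⟨t58_2 hT, t58_3 hT⟩⟩, ⟨t47_1 hT, ⟨t48_2 hT, t48_3 hT⟩⟩,
    ⟨⟨⟨⟨t35_2 hT, t35_3 hT⟩, ⟨t36_4 hT, t36_5 hT⟩, ⟨t37_4 hT, t37_5 hT⟩, ⟨t38_4 hT, t38_5 hT⟩, trivial⟩, by decide⟩,
    ⟨⟨⟨t36_6 hT, t36_7 hT⟩, ⟨t37_6 hT, t37_7 hT⟩, ⟨t38_6 hT, t38_7 hT⟩, trivial⟩, by decide⟩,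
    trivial⟩⟩)
    (by decide +kernel)

theorem p784 : Cs F 0 7 8 4 true :=
  bondF (D := D) (pk := true) (Mz := Mz) (Mk := Mk2) (κ := 367110188990) (ik := 3293087078135) (M := M) (Mb := M)
    (X := ⟨281247688929, (0, 71825774414, 35170403258), (82296411462, 26940465412, 7051916666), (0, 3896907175), (14078070538, 682488453),
    (0, 157246465589, 81285044567), (76605553085, 11824509810, 3199096949), (0, 6324983251, 3479300941), (8945533015, 1478215245, 427915599)⟩)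
    (L := [[(3298835730, 162814122), (4453111955, 20557790), (4618070504, 56864865), (1045776769, 14454262)],
    [(15804785442, 724065730), (16986285757, 204565837), (3886376155, 55241903)],
    [(42957284995, 2180382184), (11628409860, 139166434)]])
    (l1 := [(0, 8069597624, 2434410055), (0, 3500350230, 1748684814), (0, 4037619839, 2168110832), (0, 4445990711, 2368462165), (0, 1833432624, 975179148), (0, 846814559, 458296135)])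
    (l2 := [(4386431144, 3920595292, 1029316141), (5583941101, 1458610761, 405467853), (5872320517, 1292269356, 360014489), (2037321873, 426836173, 118888774), (801624881, 147185913, 41578920), (3347687283, 591814770, 168984718)])
    (V1 := V10)
    (V2 := V8)
    (U1 := V11)
    (U2 := V9)
    (x1 := (0, 21033256956, 2572509585))
    (x2 := (12636896485, 10276234239, 2406600864))
    (y1 := (0, 1731939650, 950394684))
    (y2 := (3095669808, 514797149, 148832234))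
    (fun _ _ hT => ⟨⟨t59_0 hT, ⟨t60_3 hT, t60_4 hT⟩, ⟨t60_0 hT, t60_1 hT⟩, t60_5 hT, t60_2 hT,
    ⟨t61_2 hT, t61_3 hT⟩, ⟨t61_0 hT, t61_1 hT⟩, ⟨t63_0 hT, t63_1 hT⟩, ⟨t62_0 hT, t62_1 hT⟩⟩,
    ⟨⟨t78_0 hT, t78_1 hT⟩, ⟨t79_0 hT, t79_1 hT⟩, ⟨t80_0 hT, t80_1 hT⟩, ⟨t81_0 hT, t81_1 hT⟩, ⟨t82_0 hT, t82_1 hT⟩, ⟨t83_0 hT, t83_1 hT⟩, trivial⟩,
    ⟨⟨t68_0 hT, t68_1 hT⟩, ⟨t69_0 hT, t69_1 hT⟩, ⟨t70_0 hT, t70_1 hT⟩, ⟨t71_0 hT, t71_1 hT⟩, ⟨t72_0 hT, t72_1 hT⟩, ⟨t73_0 hT, t73_1 hT⟩, trivial⟩,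
    ⟨t84_0 hT, t84_1 hT, ⟨t85_0 hT, t85_1 hT⟩⟩, ⟨t74_0 hT, t74_1 hT, ⟨t75_0 hT, t75_1 hT⟩⟩,
    ⟨t86_0 hT, ⟨t87_0 hT, t87_1 hT⟩⟩, ⟨t76_0 hT, ⟨t77_0 hT, t77_1 hT⟩⟩,
    ⟨⟨⟨⟨t64_0 hT, t64_1 hT⟩, ⟨t65_0 hT, t65_1 hT⟩, ⟨t66_0 hT, t66_1 hT⟩, ⟨t67_0 hT, t67_1 hT⟩, trivial⟩, by decide⟩,
    ⟨⟨⟨t65_2 hT, t65_3 hT⟩, ⟨t66_2 hT, t66_3 hT⟩, ⟨t67_2 hT, t67_3 hT⟩, trivial⟩, by decide⟩,
    ⟨⟨⟨t66_4 hT, t66_5 hT⟩, ⟨t67_4 hT, t67_5 hT⟩, trivial⟩, by decide⟩,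
    trivial⟩⟩)
    (by decide +kernel)

theorem p334 : Cs F 1 3 3 4 true :=
  bondU (D := D) (pk := false) (Mz := Mz) (Mk := Mk3) (κ := 352886906982) (ik := 3425816587966) (Mc := Mc)
    (X := ⟨299935509184, (0, 39803351903, 28655003278), (0, 39803351903, 28655003278), (0, 3230635943), (0, 3230635943),
    (0, 86571720025, 65532059662), (0, 86571720025, 65532059662), (0, 3207789205, 2514982279), (0, 3207789205, 2514982279)⟩)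
    (L := [([(4954190510, 175303776), (6465282078, 226585944), (6536868311, 228349249), (1945011345, 61408730)], (9828591601, 426602810)),
    ([(21210466203, 840324419), (22596370335, 886709818), (6897659604, 241721080)], (33604928029, 1692999637)),
    ([(51025224136, 2403461630), (18967727083, 767429765)], (91742957035, 5841068614))])
    (l := [(0, 4457453185, 2128524957), (0, 2567020793, 1800676498), (0, 2985203523, 2176321474), (0, 2986407679, 2185192026), (0, 870886008, 641036626)])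
    (V := V12)
    (x := (0, 3706117532, 568660564))
    (y := (0, 4668280325, 3378532456))
    (c0 := (0, 67503479553, 47816804437))
    (u1 := (0, 9219134196, 6754233684))
    (u2 := (0, 9219134196, 6754233684))
    (fun _ _ hT => ⟨⟨t88_0 hT, ⟨t89_9 hT, t89_10 hT⟩, ⟨t89_0 hT, t89_1 hT⟩, t89_11 hT, t89_2 hT,
    ⟨t90_6 hT, t90_7 hT⟩, ⟨t90_0 hT, t90_1 hT⟩, ⟨t92_0 hT, t92_1 hT⟩, ⟨t91_0 hT, t91_1 hT⟩⟩,
    ⟨⟨t93_0 hT, t93_1 hT⟩, ⟨t94_0 hT, t94_1 hT⟩, ⟨t95_0 hT, t95_1 hT⟩, ⟨t96_0 hT, t96_1 hT⟩, ⟨t97_0 hT, t97_1 hT⟩, trivial⟩, ⟨t98_0 hT, t98_1 hT⟩,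
    ⟨t99_0 hT, t99_1 hT, ⟨t100_0 hT, t100_1 hT⟩⟩, ⟨t101_0 hT, t101_1 hT⟩, ⟨t103_0 hT, t103_1 hT⟩, ⟨t102_0 hT, t102_1 hT⟩,
    ⟨⟨⟨⟨t94_6 hT, t94_7 hT⟩, ⟨t95_6 hT, t95_7 hT⟩, ⟨t96_6 hT, t96_7 hT⟩, ⟨t97_6 hT, t97_7 hT⟩, trivial⟩, ⟨t98_6 hT, t98_7 hT⟩, by decide⟩,
    ⟨⟨⟨t95_8 hT, t95_9 hT⟩, ⟨t96_8 hT, t96_9 hT⟩, ⟨t97_8 hT, t97_9 hT⟩, trivial⟩, ⟨t98_8 hT, t98_9 hT⟩, by decide⟩,
    ⟨⟨⟨t96_10 hT, t96_11 hT⟩, ⟨t97_10 hT, t97_11 hT⟩, trivial⟩, ⟨t98_10 hT, t98_11 hT⟩, by decide⟩,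
    trivial⟩⟩)
    (by decide +kernel)

theorem p354 : Cs F 1 3 5 4 true :=
  bondU (D := D) (pk := false) (Mz := Mz) (Mk := Mk3) (κ := 352886906982) (ik := 3425816587966) (Mc := Mc)
    (X := ⟨299935509184, (0, 39803351903, 28655003278), (0, 41423975449, 28961226230), (0, 3230635943), (0, 3258374104),
    (0, 86571720025, 65532059662), (0, 88239734723, 66243058974), (0, 3207789205, 2514982279), (0, 3254106623, 2537899672)⟩)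
    (L := [([(4954190510, 175303776), (6465282078, 226585944), (6536868311, 228349249), (1945011345, 61408730)], (9828591601, 426602810)),
    ([(21210466203, 840324419), (22596370335, 886709818), (6897659604, 241721080)], (33604928029, 1692999637)),
    ([(51025224136, 2403461630), (18967727083, 767429765)], (91742957035, 5841068614))])
    (l := [(0, 4457453185, 2128524957), (0, 2567020793, 1800676498), (0, 2985203523, 2176321474), (0, 2986407679, 2185192026), (0, 870886008, 641036626)])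
    (V := V12)
    (x := (0, 3706117532, 568660564))
    (y := (0, 4668280325, 3378532456))
    (c0 := (0, 70045729626, 48235676450))
    (u1 := (0, 9219134196, 6754233684))
    (u2 := (0, 9494362168, 6813321873))
    (fun _ _ hT => ⟨⟨t88_1 hT, ⟨t89_12 hT, t89_13 hT⟩, ⟨t89_3 hT, t89_4 hT⟩, t89_14 hT, t89_5 hT,
    ⟨t90_8 hT, t90_9 hT⟩, ⟨t90_2 hT, t90_3 hT⟩, ⟨t92_2 hT, t92_3 hT⟩, ⟨t91_2 hT, t91_3 hT⟩⟩,
    ⟨⟨t93_2 hT, t93_3 hT⟩, ⟨t94_2 hT, t94_3 hT⟩, ⟨t95_2 hT, t95_3 hT⟩, ⟨t96_2 hT, t96_3 hT⟩, ⟨t97_2 hT, t97_3 hT⟩, trivial⟩, ⟨t98_2 hT, t98_3 hT⟩,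
    ⟨t99_2 hT, t99_3 hT, ⟨t100_2 hT, t100_3 hT⟩⟩, ⟨t101_2 hT, t101_3 hT⟩, ⟨t103_2 hT, t103_3 hT⟩, ⟨t102_2 hT, t102_3 hT⟩,
    ⟨⟨⟨⟨t94_8 hT, t94_9 hT⟩, ⟨t95_10 hT, t95_11 hT⟩, ⟨t96_12 hT, t96_13 hT⟩, ⟨t97_12 hT, t97_13 hT⟩, trivial⟩, ⟨t98_12 hT, t98_13 hT⟩, by decide⟩,
    ⟨⟨⟨t95_12 hT, t95_13 hT⟩, ⟨t96_14 hT, t96_15 hT⟩, ⟨t97_14 hT, t97_15 hT⟩, trivial⟩, ⟨t98_14 hT, t98_15 hT⟩, by decide⟩,
    ⟨⟨⟨t96_16 hT, t96_17 hT⟩, ⟨t97_16 hT, t97_17 hT⟩, trivial⟩, ⟨t98_16 hT, t98_17 hT⟩, by decide⟩,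
    trivial⟩⟩)
    (by decide +kernel)

theorem p534 : Cs F 1 5 3 4 true :=
  bondU (D := D) (pk := false) (Mz := Mz) (Mk := Mk3) (κ := 352886906982) (ik := 3425816587966) (Mc := Mc)
    (X := ⟨299935509184, (0, 41423975449, 28961226230), (0, 39803351903, 28655003278), (0, 3258374104), (0, 3230635943),
    (0, 88239734723, 66243058974), (0, 86571720025, 65532059662), (0, 3254106623, 2537899672), (0, 3207789205, 2514982279)⟩)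
    (L := [([(5007504017, 176497137), (6524075330, 227899096), (6595365107, 229654162), (1961743271, 61758426)], (9923649226, 429023958)),
    ([(21210466203, 840324419), (22596370335, 886709818), (6897659604, 241721080)], (33604928029, 1692999637)),
    ([(51025224136, 2403461630), (18967727083, 767429765)], (91742957035, 5841068614))])
    (l := [(0, 4153665873, 1988506834), (0, 2609445378, 1804566133), (0, 3069267339, 2193691946), (0, 3073774336, 2203802122), (0, 895392738, 646581541)])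
    (V := V12)
    (x := (0, 3671305606, 598472017))
    (y := (0, 4820847350, 3408091596))
    (c0 := (0, 67503479553, 47816804437))
    (u1 := (0, 9494362168, 6813321873))
    (u2 := (0, 9219134196, 6754233684))
    (fun _ _ hT => ⟨⟨t88_2 hT, ⟨t89_15 hT, t89_16 hT⟩, ⟨t89_6 hT, t89_7 hT⟩, t89_17 hT, t89_8 hT,
    ⟨t90_10 hT, t90_11 hT⟩, ⟨t90_4 hT, t90_5 hT⟩, ⟨t92_4 hT, t92_5 hT⟩, ⟨t91_4 hT, t91_5 hT⟩⟩,
    ⟨⟨t93_4 hT, t93_5 hT⟩, ⟨t94_4 hT, t94_5 hT⟩, ⟨t95_4 hT, t95_5 hT⟩, ⟨t96_4 hT, t96_5 hT⟩, ⟨t97_4 hT, t97_5 hT⟩, trivial⟩, ⟨t98_4 hT, t98_5 hT⟩,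
    ⟨t99_4 hT, t99_5 hT, ⟨t100_4 hT, t100_5 hT⟩⟩, ⟨t101_4 hT, t101_5 hT⟩, ⟨t103_4 hT, t103_5 hT⟩, ⟨t102_4 hT, t102_5 hT⟩,
    ⟨⟨⟨⟨t94_10 hT, t94_11 hT⟩, ⟨t95_14 hT, t95_15 hT⟩, ⟨t96_18 hT, t96_19 hT⟩, ⟨t97_18 hT, t97_19 hT⟩, trivial⟩, ⟨t98_18 hT, t98_19 hT⟩, by decide⟩,
    ⟨⟨⟨t95_16 hT, t95_17 hT⟩, ⟨t96_20 hT, t96_21 hT⟩, ⟨t97_20 hT, t97_21 hT⟩, trivial⟩, ⟨t98_20 hT, t98_21 hT⟩, by decide⟩,
    ⟨⟨⟨t96_22 hT, t96_23 hT⟩, ⟨t97_22 hT, t97_23 hT⟩, trivial⟩, ⟨t98_22 hT, t98_23 hT⟩, by decide⟩,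
    trivial⟩⟩)
    (by decide +kernel)

theorem p965 : Cs F 0 9 6 5 true :=
  bondU (D := D) (pk := false) (Mz := Mz) (Mk := Mk4) (κ := 367326944522) (ik := 3291143864189) (Mc := Mc)
    (X := ⟨281147775288, (81612168460, 6964705497, 1973352675), (0, 23512343731, 11354354031), (14028280079, 171775328), (0, 891609911),
    (76349087824, 2687973147, 804830990), (0, 165870045423, 84102007663), (8263468658, 312298384, 99840195), (0, 1822985115, 981971675)⟩)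
    (L := [([(19367515978, 782670400), (20839520812, 832367225), (6965256839, 244944131)], (43925242139, 2135883274)),
    ([(50946831036, 2405005367), (20750926530, 828439088)], (132186396840, 7854407038))])
    (l := [(5440144896, 1130227897, 325539021), (6712030506, 530965540, 153907505), (6791523419, 465873360, 135177835), (2198093112, 138549545, 40422930)])
    (V := V13)
    (x := (9616751904, 2147727792, 565010316))
    (y := (14388027278, 989628753, 285108772))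
    (c0 := (0, 38279973282, 17730440591))
    (u1 := (7688553712, 467751114, 136833458))
    (u2 := (0, 13911950172, 6625980156))
    (fun _ _ hT => ⟨⟨t104_0 hT, ⟨t105_6 hT, t105_7 hT⟩, ⟨t105_0 hT, t105_1 hT⟩, t105_8 hT, t105_2 hT,
    ⟨t106_4 hT, t106_5 hT⟩, ⟨t106_0 hT, t106_1 hT⟩, ⟨t108_0 hT, t108_1 hT⟩, ⟨t107_0 hT, t107_1 hT⟩⟩,
    ⟨⟨t109_0 hT, t109_1 hT⟩, ⟨t110_0 hT, t110_1 hT⟩, ⟨t111_0 hT, t111_1 hT⟩, ⟨t112_0 hT, t112_1 hT⟩, trivial⟩, ⟨t113_0 hT, t113_1 hT⟩,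
    ⟨t114_0 hT, t114_1 hT, ⟨t115_0 hT, t115_1 hT⟩⟩, ⟨t116_0 hT, t116_1 hT⟩, ⟨t118_0 hT, t118_1 hT⟩, ⟨t117_0 hT, t117_1 hT⟩,
    ⟨⟨⟨⟨t110_4 hT, t110_5 hT⟩, ⟨t111_4 hT, t111_5 hT⟩, ⟨t112_4 hT, t112_5 hT⟩, trivial⟩, ⟨t113_4 hT, t113_5 hT⟩, by decide⟩,
    ⟨⟨⟨t111_6 hT, t111_7 hT⟩, ⟨t112_6 hT, t112_7 hT⟩, trivial⟩, ⟨t113_6 hT, t113_7 hT⟩, by decide⟩,
    trivial⟩⟩)
    (by decide +kernel)

theorem p075 : Cs F 0 0 7 5 true :=
  bondU (D := D) (pk := false) (Mz := Mz) (Mk := Mk4) (κ := 367326944522) (ik := 3291143864189) (Mc := Mc)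
    (X := ⟨281147775288, (81614679202, 20793882703, 3539633025), (0, 20942850394, 10778195797), (14028379638, 341048282), (0, 852170334),
    (76349600545, 9434845048, 1756058748), (0, 157259930961, 81291861174), (8263526525, 1064830581, 198225618), (0, 1706853197, 938898122)⟩)
    (L := [([(19367515978, 782670400), (20839520812, 832367225), (6965256839, 244944131)], (43925242139, 2135883274)),
    ([(50946831036, 2405005367), (20750926530, 828439088)], (132186396840, 7854407038))])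
    (l := [(5440539019, 3439780387, 597929041), (6712209687, 1627669180, 284401735), (6791679862, 1429258975, 249976190), (2198138282, 427948742, 75164081)])
    (V := V13)
    (x := (9617831633, 5891430921, 943396054))
    (y := (14388372260, 3010612505, 523564872))
    (c0 := (0, 34289815627, 16899315273))
    (u1 := (7688703979, 1448003188, 254938113))
    (u2 := (0, 12378910206, 6319943390))
    (fun _ _ hT => ⟨⟨t104_1 hT, ⟨t105_9 hT, t105_10 hT⟩, ⟨t105_3 hT, t105_4 hT⟩, t105_11 hT, t105_5 hT,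
    ⟨t106_6 hT, t106_7 hT⟩, ⟨t106_2 hT, t106_3 hT⟩, ⟨t108_2 hT, t108_3 hT⟩, ⟨t107_2 hT, t107_3 hT⟩⟩,
    ⟨⟨t109_2 hT, t109_3 hT⟩, ⟨t110_2 hT, t110_3 hT⟩, ⟨t111_2 hT, t111_3 hT⟩, ⟨t112_2 hT, t112_3 hT⟩, trivial⟩, ⟨t113_2 hT, t113_3 hT⟩,
    ⟨t114_2 hT, t114_3 hT, ⟨t115_2 hT, t115_3 hT⟩⟩, ⟨t116_2 hT, t116_3 hT⟩, ⟨t118_2 hT, t118_3 hT⟩, ⟨t117_2 hT, t117_3 hT⟩,
    ⟨⟨⟨⟨t110_6 hT, t110_7 hT⟩, ⟨t111_8 hT, t111_9 hT⟩, ⟨t112_8 hT, t112_9 hT⟩, trivial⟩, ⟨t113_8 hT, t113_9 hT⟩, by decide⟩,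
    ⟨⟨⟨t111_10 hT, t111_11 hT⟩, ⟨t112_10 hT, t112_11 hT⟩, trivial⟩, ⟨t113_10 hT, t113_11 hT⟩, by decide⟩,
    trivial⟩⟩)
    (by decide +kernel)

theorem p785 : Cs F 0 7 8 5 true :=
  bondU (D := D) (pk := false) (Mz := Mz) (Mk := Mk5) (κ := 367116083541) (ik := 3293034203117) (Mc := Mc)
    (X := ⟨294472160586, (0, 71825514994, 35170250366), (27030922253, 7403262966, 1979211382), (0, 3896903184), (3078315189, 149729300),
    (0, 157259932170, 81291861786), (76604463276, 11824334045, 3199049398), (0, 5336205636, 2935385389), (2419672681, 400095577, 115811488)⟩)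
    (L := [([(4913665468, 173942072), (6389682831, 224390944), (6453131173, 226106360), (1921347459, 61042997)], (9780629604, 424861110)),
    ([(20603116742, 823720846), (21928301499, 869184328), (6700896200, 237856631)], (32820724667, 1669154257)),
    ([(49383627176, 2355094541), (18376292823, 754240049)], (89228208680, 5752977980))])
    (l := [(0, 9275317920, 3096986724), (0, 4478778759, 2179043258), (0, 5081824488, 2589148920), (0, 5068436484, 2593762682), (0, 1477301869, 760875861)])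
    (V := V14)
    (x := (0, 11733298840, 1435058356))
    (y := (0, 8020880933, 4046040942))
    (c0 := (45081698631, 12961690364, 3446185250))
    (u1 := (0, 12515822672, 6390894063))
    (u2 := (7063751223, 1714909209, 465940522))
    (fun _ _ hT => ⟨⟨t119_0 hT, ⟨t120_3 hT, t120_4 hT⟩, ⟨t120_0 hT, t120_1 hT⟩, t120_5 hT, t120_2 hT,
    ⟨t121_2 hT, t121_3 hT⟩, ⟨t121_0 hT, t121_1 hT⟩, ⟨t123_0 hT, t123_1 hT⟩, ⟨t122_0 hT, t122_1 hT⟩⟩,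
    ⟨⟨t124_0 hT, t124_1 hT⟩, ⟨t125_0 hT, t125_1 hT⟩, ⟨t126_0 hT, t126_1 hT⟩, ⟨t127_0 hT, t127_1 hT⟩, ⟨t128_0 hT, t128_1 hT⟩, trivial⟩, ⟨t129_0 hT, t129_1 hT⟩,
    ⟨t130_0 hT, t130_1 hT, ⟨t131_0 hT, t131_1 hT⟩⟩, ⟨t132_0 hT, t132_1 hT⟩, ⟨t134_0 hT, t134_1 hT⟩, ⟨t133_0 hT, t133_1 hT⟩,
    ⟨⟨⟨⟨t125_2 hT, t125_3 hT⟩, ⟨t126_2 hT, t126_3 hT⟩, ⟨t127_2 hT, t127_3 hT⟩, ⟨t128_2 hT, t128_3 hT⟩, trivial⟩, ⟨t129_2 hT, t129_3 hT⟩, by decide⟩,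
    ⟨⟨⟨t126_4 hT, t126_5 hT⟩, ⟨t127_4 hT, t127_5 hT⟩, ⟨t128_4 hT, t128_5 hT⟩, trivial⟩, ⟨t129_4 hT, t129_5 hT⟩, by decide⟩,
    ⟨⟨⟨t127_6 hT, t127_7 hT⟩, ⟨t128_6 hT, t128_7 hT⟩, trivial⟩, ⟨t129_6 hT, t129_7 hT⟩, by decide⟩,
    trivial⟩⟩)
    (by decide +kernel)

theorem p335 : Cs F 1 3 3 5 false :=
  bondU (D := D) (pk := false) (Mz := Mz) (Mk := Mk6) (κ := 352889477310) (ik := 3425791635472) (Mc := Mc)
    (X := ⟨304465727700, (0, 39802302464, 28654197485), (0, 11991963412, 8843222685), (0, 3230617030), (0, 706918865),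
    (0, 86573439342, 65533339190), (0, 86573439342, 65533339190), (0, 3007387928, 2357858529), (0, 3007387928, 2357858529)⟩)
    (L := [([(5070748438, 178333152), (6639557413, 231274313), (6777674314, 234991375), (2330401375, 71892957)], (17610289849, 710072759)),
    ([(21798947591, 857640607), (23449929816, 912439268), (8284981783, 282950581)], (60894220296, 2817772208)),
    ([(53030010525, 2470960375), (22867605912, 896855290)], (169679947477, 9714539090))])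
    (l := [(0, 4554569679, 2175714239), (0, 2624267342, 1841479844), (0, 3062217071, 2233224464), (0, 3092212902, 2263523685), (0, 1039394234, 765988508)])
    (V := V15)
    (x := (0, 3768298076, 578201153))
    (y := (0, 8235632009, 5987018391))
    (c0 := (0, 21215349273, 15239485477))
    (u1 := (0, 2765963201, 2039055597))
    (u2 := (0, 2765963201, 2039055597))
    (fun _ _ hT => ⟨⟨t135_0 hT, ⟨t136_9 hT, t136_10 hT⟩, ⟨t136_0 hT, t136_1 hT⟩, t136_11 hT, t136_2 hT,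
    ⟨t137_6 hT, t137_7 hT⟩, ⟨t137_0 hT, t137_1 hT⟩, ⟨t139_0 hT, t139_1 hT⟩, ⟨t138_0 hT, t138_1 hT⟩⟩,
    ⟨⟨t140_0 hT, t140_1 hT⟩, ⟨t141_0 hT, t141_1 hT⟩, ⟨t142_0 hT, t142_1 hT⟩, ⟨t143_0 hT, t143_1 hT⟩, ⟨t144_0 hT, t144_1 hT⟩, trivial⟩, ⟨t145_0 hT, t145_1 hT⟩,
    ⟨t146_0 hT, t146_1 hT, ⟨t147_0 hT, t147_1 hT⟩⟩, ⟨t148_0 hT, t148_1 hT⟩, ⟨t150_0 hT, t150_1 hT⟩, ⟨t149_0 hT, t149_1 hT⟩,
    ⟨⟨⟨⟨t141_6 hT, t141_7 hT⟩, ⟨t142_6 hT, t142_7 hT⟩, ⟨t143_6 hT, t143_7 hT⟩, ⟨t144_6 hT, t144_7 hT⟩, trivial⟩, ⟨t145_6 hT, t145_7 hT⟩, by decide⟩,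
    ⟨⟨⟨t142_8 hT, t142_9 hT⟩, ⟨t143_8 hT, t143_9 hT⟩, ⟨t144_8 hT, t144_9 hT⟩, trivial⟩, ⟨t145_8 hT, t145_9 hT⟩, by decide⟩,
    ⟨⟨⟨t143_10 hT, t143_11 hT⟩, ⟨t144_10 hT, t144_11 hT⟩, trivial⟩, ⟨t145_10 hT, t145_11 hT⟩, by decide⟩,
    trivial⟩⟩)
    (by decide +kernel)

theorem p355 : Cs F 1 3 5 5 false :=
  bondU (D := D) (pk := false) (Mz := Mz) (Mk := Mk6) (κ := 352889477310) (ik := 3425791635472) (Mc := Mc)
    (X := ⟨304465727700, (0, 39802302464, 28654197485), (0, 12393838272, 8933627281), (0, 3230617030), (0, 712979744),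
    (0, 86573439342, 65533339190), (0, 88241477214, 66244349774), (0, 3007387928, 2357858529), (0, 3050805589, 2379343704)⟩)
    (L := [([(5070748438, 178333152), (6639557413, 231274313), (6777674314, 234991375), (2330401375, 71892957)], (17610289849, 710072759)),
    ([(21798947591, 857640607), (23449929816, 912439268), (8284981783, 282950581)], (60894220296, 2817772208)),
    ([(53030010525, 2470960375), (22867605912, 896855290)], (169679947477, 9714539090))])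
    (l := [(0, 4554569679, 2175714239), (0, 2624267342, 1841479844), (0, 3062217071, 2233224464), (0, 3092212902, 2263523685), (0, 1039394234, 765988508)])
    (V := V15)
    (x := (0, 3768298076, 578201153))
    (y := (0, 8235632009, 5987018391))
    (c0 := (0, 21946314366, 15372894847))
    (u1 := (0, 2765963201, 2039055597))
    (u2 := (0, 2844289739, 2056880691))
    (fun _ _ hT => ⟨⟨t135_1 hT, ⟨t136_12 hT, t136_13 hT⟩, ⟨t136_3 hT, t136_4 hT⟩, t136_14 hT, t136_5 hT,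
    ⟨t137_8 hT, t137_9 hT⟩, ⟨t137_2 hT, t137_3 hT⟩, ⟨t139_2 hT, t139_3 hT⟩, ⟨t138_2 hT, t138_3 hT⟩⟩,
    ⟨⟨t140_2 hT, t140_3 hT⟩, ⟨t141_2 hT, t141_3 hT⟩, ⟨t142_2 hT, t142_3 hT⟩, ⟨t143_2 hT, t143_3 hT⟩, ⟨t144_2 hT, t144_3 hT⟩, trivial⟩, ⟨t145_2 hT, t145_3 hT⟩,
    ⟨t146_2 hT, t146_3 hT, ⟨t147_2 hT, t147_3 hT⟩⟩, ⟨t148_2 hT, t148_3 hT⟩, ⟨t150_2 hT, t150_3 hT⟩, ⟨t149_2 hT, t149_3 hT⟩,
    ⟨⟨⟨⟨t141_8 hT, t141_9 hT⟩, ⟨t142_10 hT, t142_11 hT⟩, ⟨t143_12 hT, t143_13 hT⟩, ⟨t144_12 hT, t144_13 hT⟩, trivial⟩, ⟨t145_12 hT, t145_13 hT⟩, by decide⟩,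
    ⟨⟨⟨t142_12 hT, t142_13 hT⟩, ⟨t143_14 hT, t143_15 hT⟩, ⟨t144_14 hT, t144_15 hT⟩, trivial⟩, ⟨t145_14 hT, t145_15 hT⟩, by decide⟩,
    ⟨⟨⟨t143_16 hT, t143_17 hT⟩, ⟨t144_16 hT, t144_17 hT⟩, trivial⟩, ⟨t145_16 hT, t145_17 hT⟩, by decide⟩,
    trivial⟩⟩)
    (by decide +kernel)

theorem p535 : Cs F 1 5 3 5 false :=
  bondU (D := D) (pk := false) (Mz := Mz) (Mk := Mk6) (κ := 352889477310) (ik := 3425791635472) (Mc := Mc)
    (X := ⟨304465727700, (0, 41422906566, 28960413032), (0, 11991963412, 8843222685), (0, 3258355026), (0, 706918865),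
    (0, 88241477214, 66244349774), (0, 86573439342, 65533339190), (0, 3050805589, 2379343704), (0, 3007387928, 2357858529)⟩)
    (L := [([(5125195373, 179547171), (6699802586, 232614659), (6838162737, 236334262), (2350293114, 72302318)], (17775610655, 714102587)),
    ([(21798947591, 857640607), (23449929816, 912439268), (8284981783, 282950581)], (60894220296, 2817772208)),
    ([(53030010525, 2470960375), (22867605912, 896855290)], (169679947477, 9714539090))])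
    (l := [(0, 4243696299, 2032706363), (0, 2667455602, 1845471347), (0, 3148248102, 2251051307), (0, 3182391633, 2282800936), (0, 1068399484, 772616279)])
    (V := V15)
    (x := (0, 3732904990, 608513659))
    (y := (0, 8496376655, 6039398331))
    (c0 := (0, 21215349273, 15239485477))
    (u1 := (0, 2844289739, 2056880691))
    (u2 := (0, 2765963201, 2039055597))
    (fun _ _ hT => ⟨⟨t135_2 hT, ⟨t136_15 hT, t136_16 hT⟩, ⟨t136_6 hT, t136_7 hT⟩, t136_17 hT, t136_8 hT,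
    ⟨t137_10 hT, t137_11 hT⟩, ⟨t137_4 hT, t137_5 hT⟩, ⟨t139_4 hT, t139_5 hT⟩, ⟨t138_4 hT, t138_5 hT⟩⟩,
    ⟨⟨t140_4 hT, t140_5 hT⟩, ⟨t141_4 hT, t141_5 hT⟩, ⟨t142_4 hT, t142_5 hT⟩, ⟨t143_4 hT, t143_5 hT⟩, ⟨t144_4 hT, t144_5 hT⟩, trivial⟩, ⟨t145_4 hT, t145_5 hT⟩,
    ⟨t146_4 hT, t146_5 hT, ⟨t147_4 hT, t147_5 hT⟩⟩, ⟨t148_4 hT, t148_5 hT⟩, ⟨t150_4 hT, t150_5 hT⟩, ⟨t149_4 hT, t149_5 hT⟩,
    ⟨⟨⟨⟨t141_10 hT, t141_11 hT⟩, ⟨t142_14 hT, t142_15 hT⟩, ⟨t143_18 hT, t143_19 hT⟩, ⟨t144_18 hT, t144_19 hT⟩, trivial⟩, ⟨t145_18 hT, t145_19 hT⟩, by decide⟩,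
    ⟨⟨⟨t142_16 hT, t142_17 hT⟩, ⟨t143_20 hT, t143_21 hT⟩, ⟨t144_20 hT, t144_21 hT⟩, trivial⟩, ⟨t145_20 hT, t145_21 hT⟩, by decide⟩,
    ⟨⟨⟨t143_22 hT, t143_23 hT⟩, ⟨t144_22 hT, t144_23 hT⟩, trivial⟩, ⟨t145_22 hT, t145_23 hT⟩, by decide⟩,
    trivial⟩⟩)
    (by decide +kernel)

theorem p966 : Cs F 0 9 6 6 false :=
  bondU (D := D) (pk := false) (Mz := Mz) (Mk := Mk7) (κ := 367329898374) (ik := 3291117398737) (Mc := Mc)
    (X := ⟨281870894142, (81611945193, 6964695112, 1973349451), (0, 6788980955, 3369255812), (14028275490, 171775266), (0, 195692759),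
    (76350151192, 2688013001, 804842923), (0, 165874269797, 84104095697), (8067980442, 304906717, 97477074), (0, 1543718926, 831541260)⟩)
    (L := [([(19466964411, 785512327), (20979069283, 836453170), (7166908234, 250804504)], (47621295292, 2270460289)),
    ([(51302430546, 2416470875), (21364945947, 848056223)], (143913362889, 8348454937))])
    (l := [(5463988668, 1134712254, 326855818), (6745120895, 533329229, 154603014), (6835419847, 468611619, 135983166), (2260435797, 142252470, 41512930)])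
    (V := V16)
    (x := (9646100411, 2154281488, 566734503))
    (y := (15550576176, 1061877453, 306190144))
    (c0 := (0, 11729598862, 5528558687))
    (u1 := (2317618479, 135873589, 39920245))
    (u2 := (0, 4173199915, 2010682987))
    (fun _ _ hT => ⟨⟨t151_0 hT, ⟨t152_6 hT, t152_7 hT⟩, ⟨t152_0 hT, t152_1 hT⟩, t152_8 hT, t152_2 hT,
    ⟨t153_4 hT, t153_5 hT⟩, ⟨t153_0 hT, t153_1 hT⟩, ⟨t155_0 hT, t155_1 hT⟩, ⟨t154_0 hT, t154_1 hT⟩⟩,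
    ⟨⟨t156_0 hT, t156_1 hT⟩, ⟨t157_0 hT, t157_1 hT⟩, ⟨t158_0 hT, t158_1 hT⟩, ⟨t159_0 hT, t159_1 hT⟩, trivial⟩, ⟨t160_0 hT, t160_1 hT⟩,
    ⟨t161_0 hT, t161_1 hT, ⟨t162_0 hT, t162_1 hT⟩⟩, ⟨t163_0 hT, t163_1 hT⟩, ⟨t165_0 hT, t165_1 hT⟩, ⟨t164_0 hT, t164_1 hT⟩,
    ⟨⟨⟨⟨t157_4 hT, t157_5 hT⟩, ⟨t158_4 hT, t158_5 hT⟩, ⟨t159_4 hT, t159_5 hT⟩, trivial⟩, ⟨t160_4 hT, t160_5 hT⟩, by decide⟩,
    ⟨⟨⟨t158_6 hT, t158_7 hT⟩, ⟨t159_6 hT, t159_7 hT⟩, trivial⟩, ⟨t160_6 hT, t160_7 hT⟩, by decide⟩,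
    trivial⟩⟩)
    (by decide +kernel)

theorem p076 : Cs F 0 0 7 6 false :=
  bondU (D := D) (pk := false) (Mz := Mz) (Mk := Mk7) (κ := 367329898374) (ik := 3291117398737) (Mc := Mc)
    (X := ⟨281870894142, (81614455933, 20793848372, 3539626755), (0, 6121368075, 3204350985), (14028375049, 341048159), (0, 187040900),
    (76350663920, 9434984942, 1756084784), (0, 157263866626, 81293854754), (8068036941, 1039627818, 193533809), (0, 1445382676, 795067381)⟩)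
    (L := [([(19466964411, 785512327), (20979069283, 836453170), (7166908234, 250804504)], (47621295292, 2270460289)),
    ([(51302430546, 2416470875), (21364945947, 848056223)], (143913362889, 8348454937))])
    (l := [(5464384199, 3453727678, 600391575), (6745300809, 1635037064, 285704784), (6835577142, 1437786279, 251483941), (2260482115, 439490191, 77206292)])
    (V := V16)
    (x := (9647183434, 5909408068, 946274938))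
    (y := (15550944697, 3233561220, 562741900))
    (c0 := (0, 10397575718, 5272444668))
    (u1 := (2317661068, 422993770, 74708745))
    (u2 := (0, 3730465922, 1918607379))
    (fun _ _ hT => ⟨⟨t151_1 hT, ⟨t152_9 hT, t152_10 hT⟩, ⟨t152_3 hT, t152_4 hT⟩, t152_11 hT, t152_5 hT,
    ⟨t153_6 hT, t153_7 hT⟩, ⟨t153_2 hT, t153_3 hT⟩, ⟨t155_2 hT, t155_3 hT⟩, ⟨t154_2 hT, t154_3 hT⟩⟩,
    ⟨⟨t156_2 hT, t156_3 hT⟩, ⟨t157_2 hT, t157_3 hT⟩, ⟨t158_2 hT, t158_3 hT⟩, ⟨t159_2 hT, t159_3 hT⟩, trivial⟩, ⟨t160_2 hT, t160_3 hT⟩,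
    ⟨t161_2 hT, t161_3 hT, ⟨t162_2 hT, t162_3 hT⟩⟩, ⟨t163_2 hT, t163_3 hT⟩, ⟨t165_2 hT, t165_3 hT⟩, ⟨t164_2 hT, t164_3 hT⟩,
    ⟨⟨⟨⟨t157_6 hT, t157_7 hT⟩, ⟨t158_8 hT, t158_9 hT⟩, ⟨t159_8 hT, t159_9 hT⟩, trivial⟩, ⟨t160_8 hT, t160_9 hT⟩, by decide⟩,
    ⟨⟨⟨t158_10 hT, t158_11 hT⟩, ⟨t159_10 hT, t159_11 hT⟩, trivial⟩, ⟨t160_10 hT, t160_11 hT⟩, by decide⟩,
    trivial⟩⟩)
    (by decide +kernel)

theorem p786 : Cs F 0 7 8 6 false :=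
  bondU (D := D) (pk := false) (Mz := Mz) (Mk := Mk8) (κ := 367119319053) (ik := 3293005180804) (Mc := Mc)
    (X := ⟨299843909586, (0, 71825497169, 35170239673), (8387540740, 2030450176, 551725903), (0, 3896902981), (675608237, 32900300),
    (0, 157263866626, 81293854754), (76605929531, 11824574841, 3199114539), (0, 5070456705, 2789202590), (2251977596, 372371389, 107785658)⟩)
    (L := [([(5054314013, 177516302), (6586673961, 229450652), (6692938489, 232314865), (2172458773, 67566929)], (14222585677, 583069393)),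
    ([(21261069461, 842241758), (22770355289, 893002428), (7595185013, 263263149)], (48183540603, 2290660444)),
    ([(51380222302, 2418367438), (20903112070, 834356103)], (133267330086, 7894310751))])
    (l := [(0, 9526363335, 3181732640), (0, 4599653247, 2238852913), (0, 5230298301, 2666038651), (0, 5247294632, 2686738477), (0, 1664089415, 858057847)])
    (V := V17)
    (x := (0, 11970995701, 1464129926))
    (y := (0, 11477588711, 5829631500))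
    (c0 := (14400340421, 3873209111, 1038040501))
    (u1 := (0, 3770891068, 1939659111))
    (u2 := (2130662443, 500937498, 136613885))
    (fun _ _ hT => ⟨⟨t166_0 hT, ⟨t167_3 hT, t167_4 hT⟩, ⟨t167_0 hT, t167_1 hT⟩, t167_5 hT, t167_2 hT,
    ⟨t168_2 hT, t168_3 hT⟩, ⟨t168_0 hT, t168_1 hT⟩, ⟨t170_0 hT, t170_1 hT⟩, ⟨t169_0 hT, t169_1 hT⟩⟩,
    ⟨⟨t171_0 hT, t171_1 hT⟩, ⟨t172_0 hT, t172_1 hT⟩, ⟨t173_0 hT, t173_1 hT⟩, ⟨t174_0 hT, t174_1 hT⟩, ⟨t175_0 hT, t175_1 hT⟩, trivial⟩, ⟨t176_0 hT, t176_1 hT⟩,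
    ⟨t177_0 hT, t177_1 hT, ⟨t178_0 hT, t178_1 hT⟩⟩, ⟨t179_0 hT, t179_1 hT⟩, ⟨t181_0 hT, t181_1 hT⟩, ⟨t180_0 hT, t180_1 hT⟩,
    ⟨⟨⟨⟨t172_2 hT, t172_3 hT⟩, ⟨t173_2 hT, t173_3 hT⟩, ⟨t174_2 hT, t174_3 hT⟩, ⟨t175_2 hT, t175_3 hT⟩, trivial⟩, ⟨t176_2 hT, t176_3 hT⟩, by decide⟩,
    ⟨⟨⟨t173_4 hT, t173_5 hT⟩, ⟨t174_4 hT, t174_5 hT⟩, ⟨t175_4 hT, t175_5 hT⟩, trivial⟩, ⟨t176_4 hT, t176_5 hT⟩, by decide⟩,
    ⟨⟨⟨t174_6 hT, t174_7 hT⟩, ⟨t175_6 hT, t175_7 hT⟩, trivial⟩, ⟨t176_6 hT, t176_7 hT⟩, by decide⟩,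
    trivial⟩⟩)
    (by decide +kernel)

theorem c0 : Cs F 1 3 3 3 false := (Cs.split p333 (Cs.split p334 p335))

theorem c1 : Cs F 1 3 5 3 false := (Cs.split p353 (Cs.split p354 p355))

theorem c2 : Cs F 1 5 3 3 false := (Cs.split p533 (Cs.split p534 p535))

theorem c3 : Cs F 0 9 6 4 false := (Cs.split p964 (Cs.split p965 p966))

theorem c4 : Cs F 0 0 7 4 false := (Cs.split p074 (Cs.split p075 p076))

theorem c5 : Cs F 0 7 8 4 false := (Cs.split p784 (Cs.split p785 p786))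


end Pool.Agent.P.MP_e4ac67_pr.Gr.B3
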