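import Pool.Agent.P.MP_e4ac67_pr.D.B3Dwy

namespace Pool.Agent.P.MP_e4ac67_pr.Gr.B3

theorem bwy : Base wy Awy Rwy false :=
  ⟨kwy, ACert.ok_of (by decide +kernel) (by decide +kernel) (by decide +kernel) (by decide +kernel) (by decide +kernel) (by decide +kernel),
    fun h => absurd h (by decide)⟩


end Pool.Agent.P.MP_e4ac67_pr.Gr.B3
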