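import Pool.Agent.P.MP_e4ac67_pr.D.SawT0
import Pool.Agent.P.MP_e4ac67_pr.D.SawT1

namespace Pool.Agent.P.MP_e4ac67_pr.Gr.Saw

theorem c0 {G : Grid} {T : Tube G} (hT : T.Cs 3 3 3 false) : ∀ o,
    (spL wx (fun _ => NN) tv o).Starts T 0 NN ti ti (sa0 0 o) (sb0 0 o) ∧
    (spL wx (fun _ => NN) tv o).Starts T 2 NN ti ti (sa0 1 o) (sb0 1 o) ∧
    (spS wx 5 NN tv true pw o).Starts T 0 NN ti ti (sa0 2 o) (sb0 2 o) ∧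
    (M.spC 0 o).Starts T 2 NN ti ti (sa0 3 o) (sb0 3 o)
  | false => ⟨L1_0 hT, L1_3 hT, S10_0 hT, C10_0 hT⟩
  | true => ⟨L1_6 hT, L1_9 hT, S11_0 hT, C11_0 hT⟩

theorem c1 {G : Grid} {T : Tube G} (hT : T.Cs 3 5 3 false) : ∀ o,
    (spL wx (fun _ => NN) tv o).Starts T 0 NN ti ti (sa1 0 o) (sb1 0 o) ∧
    (spL wx (fun _ => NN) tv o).Starts T 2 NN ti ti (sa1 1 o) (sb1 1 o) ∧
    (spS wx 5 NN tv true pw o).Starts T 0 NN ti ti (sa1 2 o) (sb1 2 o) ∧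
    (M.spC 0 o).Starts T 2 NN ti ti (sa1 3 o) (sb1 3 o)
  | false => ⟨L1_1 hT, L1_4 hT, S10_1 hT, C10_1 hT⟩
  | true => ⟨L1_7 hT, L1_10 hT, S11_1 hT, C11_1 hT⟩

theorem c2 {G : Grid} {T : Tube G} (hT : T.Cs 5 3 3 false) : ∀ o,
    (spL wx (fun _ => NN) tv o).Starts T 0 NN ti ti (sa2 0 o) (sb2 0 o) ∧
    (spL wx (fun _ => NN) tv o).Starts T 2 NN ti ti (sa2 1 o) (sb2 1 o) ∧
    (spS wx 5 NN tv true pw o).Starts T 0 NN ti ti (sa2 2 o) (sb2 2 o) ∧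
    (M.spC 0 o).Starts T 2 NN ti ti (sa2 3 o) (sb2 3 o)
  | false => ⟨L1_2 hT, L1_5 hT, S10_2 hT, C10_2 hT⟩
  | true => ⟨L1_8 hT, L1_11 hT, S11_2 hT, C11_2 hT⟩

theorem c3 {G : Grid} {T : Tube G} (hT : T.Cs 9 6 4 false) : ∀ o,
    (spL wx (fun _ => NN) tv o).Starts T 0 NN ti ti (sa3 0 o) (sb3 0 o) ∧
    (spL wx (fun _ => NN) tv o).Starts T 2 NN ti ti (sa3 1 o) (sb3 1 o) ∧
    (spS wx 6 NN tv true pw o).Starts T 0 NN ti ti (sa3 2 o) (sb3 2 o) ∧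
    (M.spC 0 o).Starts T 2 NN ti ti (sa3 3 o) (sb3 3 o)
  | false => ⟨L0_0 hT, L0_3 hT, S00_0 hT, C00_0 hT⟩
  | true => ⟨L0_6 hT, L0_9 hT, S01_0 hT, C01_0 hT⟩

theorem c4 {G : Grid} {T : Tube G} (hT : T.Cs 0 7 4 false) : ∀ o,
    (spL wx (fun _ => NN) tv o).Starts T 0 NN ti ti (sa4 0 o) (sb4 0 o) ∧
    (spL wx (fun _ => NN) tv o).Starts T 2 NN ti ti (sa4 1 o) (sb4 1 o) ∧
    (spS wx 6 NN tv true pw o).Starts T 0 NN ti ti (sa4 2 o) (sb4 2 o) ∧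
    (M.spC 0 o).Starts T 2 NN ti ti (sa4 3 o) (sb4 3 o)
  | false => ⟨L0_1 hT, L0_4 hT, S00_1 hT, C00_1 hT⟩
  | true => ⟨L0_7 hT, L0_10 hT, S01_1 hT, C01_1 hT⟩

theorem c5 {G : Grid} {T : Tube G} (hT : T.Cs 7 8 4 false) : ∀ o,
    (spL wx (fun _ => NN) tv o).Starts T 0 NN ti ti (sa5 0 o) (sb5 0 o) ∧
    (spL wx (fun _ => NN) tv o).Starts T 2 NN ti ti (sa5 1 o) (sb5 1 o) ∧
    (spS wx 6 NN tv true pw o).Starts T 0 NN ti ti (sa5 2 o) (sb5 2 o) ∧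
    (M.spC 0 o).Starts T 2 NN ti ti (sa5 3 o) (sb5 3 o)
  | false => ⟨L0_2 hT, L0_5 hT, S00_2 hT, C00_2 hT⟩
  | true => ⟨L0_8 hT, L0_11 hT, S01_2 hT, C01_2 hT⟩


end Pool.Agent.P.MP_e4ac67_pr.Gr.Saw
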