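import Pool.Agent.P.MP_e4ac67_pr.D.SawDwf

namespace Pool.Agent.P.MP_e4ac67_pr.Gr.Saw

theorem bwf : Base wf Awf Rwf true :=
  ⟨kwf, ACert.ok_of (by decide +kernel) (by decide +kernel) (by decide +kernel) (by decide +kernel) (by decide +kernel) (by decide +kernel),
    fun _ => RCert.ok_of (by decide +kernel)⟩

theorem hYf : Awf.chkY wf 2 ti ti 1099511627776 Yf = true := by decide +kernel


end Pool.Agent.P.MP_e4ac67_pr.Gr.Saw
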