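import Pool.Agent.P.MP_e4ac67_pr.D.SawDwx

namespace Pool.Agent.P.MP_e4ac67_pr.Gr.Saw

theorem bwx : Base wx Awx Rwx true :=
  ⟨kwx, ACert.ok_of (by decide +kernel) (by decide +kernel) (by decide +kernel) (by decide +kernel) (by decide +kernel) (by decide +kernel),
    fun _ => RCert.ok_of (by decide +kernel)⟩

theorem hY0 : Awx.chkY wx 0 ti ti 1099511627776 Y0 = true := by decide +kernel

theorem hY2 : Awx.chkY wx 2 ti ti 1099511627776 Y2 = true := by decide +kernel


end Pool.Agent.P.MP_e4ac67_pr.Gr.Saw
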