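import Pool.Agent.P.MP_e4ac67_pr.D.Saw
import Pool.Agent.P.MP_e4ac67_pr.G.AsmSaw

/-! The comparison of the connective constants. -/

open scoped ENNReal

namespace Pool.Agent.P.MP_e4ac67_pr.Gr.Saw

theorem xle {n : ℕ} (h : 23 * NN ≤ n * 125) : (23 / 125 : ℝ≥0∞) ≤ vv n := by
  exact_mod_cast Ex.le_vv (a := 23) (b := 125) (by omega) h

theorem stp {w : NW (Fin 3)} {a b : Fin 3} (h1 : 23 * NN ≤ w.wl a b false * 125)
    (h2 : 23 * NN ≤ w.wl a b true * 125) : Stp w a b (23 / 125) 1 :=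
  ⟨xle h1, (mul_one _).trans_le (xle h2)⟩

theorem inv {n : ℕ} (h : 125 * NN ≤ n * 23) : 1 ≤ (23 / 125 : ℝ≥0∞) * vv n := by
  refine le_trans (le_of_eq ?_) (mul_le_mul_right (Ex.le_vv (a := 125) (b := 23) (by omega) h) _)
  have e : (23 / 125 : ℝ≥0∞)⁻¹ = 125 / 23 := ENNReal.inv_div (by simp) (by simp)
  push_cast
  rw [← e, ENNReal.mul_inv_cancel (by simp) (by simp [ENNReal.div_eq_top])]

theorem sawW : SawW (23 / 125) (125 / 23) wx M tv pw := by
  have o : ∀ {n}, NN ≤ n → 1 ≤ vv n := fun h => vv_NN.ge.trans (vv_mono h)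
  have t : ∀ {n}, 46 * NN ≤ n * 125 → 2 * (23 / 125 : ℝ≥0∞) ≤ vv n := fun h => by
    refine le_trans (le_of_eq ?_) (Ex.le_vv (a := 46) (b := 125) (by omega) h)
    rw [← mul_div_assoc]; norm_num
  refine ⟨⟨xle (by decide +kernel), (mul_zero _).trans_le zero_le⟩,
    stp (by decide +kernel) (by decide +kernel), stp (by decide +kernel) (by decide +kernel),
    stp (by decide +kernel) (by decide +kernel), o (by decide +kernel), o (by decide +kernel),
    inv (by decide +kernel), rfl, fun _ => rfl, stp (by decide +kernel) (by decide +kernel),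
    ⟨t (by decide +kernel), (mul_one _).trans_le (t (by decide +kernel))⟩,
    stp (by decide +kernel) (by decide +kernel), stp (by decide +kernel) (by decide +kernel),
    le_rfl, fun _ => vv_NN.ge, fun _ => rfl, fun _ => rfl, Or.inr ⟨rfl, fun q hq => inv ?_⟩⟩
  revert q
  decide +kernel

theorem sawAll : SawAll wx M tv pw ti := by
  simp only [SawAll, List.mem_cons, List.not_mem_nil, or_false, forall_eq_or_imp, forall_eq]
  exact ⟨⟨_, _, sK0, by decide +kernel, fun _ _ a b c => c0 ⟨a, b, c, nofun⟩⟩,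
    ⟨_, _, sK1, by decide +kernel, fun _ _ a b c => c1 ⟨a, b, c, nofun⟩⟩,
    ⟨_, _, sK2, by decide +kernel, fun _ _ a b c => c2 ⟨a, b, c, nofun⟩⟩,
    ⟨_, _, sK3, by decide +kernel, fun _ _ a b c => c3 ⟨a, b, c, nofun⟩⟩,
    ⟨_, _, sK4, by decide +kernel, fun _ _ a b c => c4 ⟨a, b, c, nofun⟩⟩,
    ⟨_, _, sK5, by decide +kernel, fun _ _ a b c => c5 ⟨a, b, c, nofun⟩⟩⟩

theorem mu_le {V V' : Type} {T : PlaneTri V} {T' : PlaneTri V'} {k : ℕ} (h7 : 7 ≤ k)
    (hT : ∀ v, k ≤ T.deg v) (hT' : ∀ v, T'.deg v = k) (v : V) (v' : V') :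
    connConst T'.G v' ≤ connConst T.G v :=
  mu_cmp sawW (by exact_mod_cast Ex.le_vv (a := 125) (b := 23) (by omega) (by decide +kernel))
    sawAll h7 hT hT' v v'

end Pool.Agent.P.MP_e4ac67_pr.Gr.Saw
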