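import Pool.Agent.P.MP_e4ac67_pr.D.StT0
import Pool.Agent.P.MP_e4ac67_pr.D.StT1
import Pool.Agent.P.MP_e4ac67_pr.D.StT2
import Pool.Agent.P.MP_e4ac67_pr.D.StT3
import Pool.Agent.P.MP_e4ac67_pr.D.StT4
import Pool.Agent.P.MP_e4ac67_pr.D.StT5
import Pool.Agent.P.MP_e4ac67_pr.D.StT6
import Pool.Agent.P.MP_e4ac67_pr.D.StT7
import Pool.Agent.P.MP_e4ac67_pr.D.StT8
import Pool.Agent.P.MP_e4ac67_pr.D.StT9
import Pool.Agent.P.MP_e4ac67_pr.D.StT10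
import Pool.Agent.P.MP_e4ac67_pr.D.StT11
import Pool.Agent.P.MP_e4ac67_pr.D.StT12
import Pool.Agent.P.MP_e4ac67_pr.D.StT13
import Pool.Agent.P.MP_e4ac67_pr.D.StT14
import Pool.Agent.P.MP_e4ac67_pr.D.StT15
import Pool.Agent.P.MP_e4ac67_pr.D.StT16
import Pool.Agent.P.MP_e4ac67_pr.D.StT17
import Pool.Agent.P.MP_e4ac67_pr.D.StT18
import Pool.Agent.P.MP_e4ac67_pr.D.StT19
import Pool.Agent.P.MP_e4ac67_pr.D.StT20
import Pool.Agent.P.MP_e4ac67_pr.D.StT21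
import Pool.Agent.P.MP_e4ac67_pr.D.StT22
import Pool.Agent.P.MP_e4ac67_pr.D.StT23

namespace Pool.Agent.P.MP_e4ac67_pr.Gr.St

theorem p333 : Cs F 1 3 3 3 true :=
  siteP (D := D) (pk := true) (Mz := Mz) (M := M) (Mc := Mc)
    (X := ⟨280524694722, (0, 38329667634, 30341241992), (0, 138712159314, 108872171323), (0, 14670829229), (0, 52681902893), (0, 2132957), (0, 62694719),
    (0, 28725290557, 6850153266), (0, 28725290557, 6850153266), (0, 338416, 274015), (0, 2692880, 2396158), (0, 967637246, 767061630), (0, 967637247, 767061631)⟩)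
    (L := [[(884301311, 7032797), (996167170, 7032797), (1125306038, 7032797), (52106958, 314593)],
    [(18539606812, 172782493), (18411297551, 172782493), (913217812, 7272324)],
    [(127596998753, 1924124040), (7882706897, 54103733)]])
    (l1 := [(0, 357725793, 181850349), (0, 546915524, 390659618), (0, 2428858924, 1888254460), (0, 6108523013, 4793904919), (0, 1415366453, 1109615659), (0, 0, 0)])
    (l2 := [(0, 1624951442, 807450898), (0, 4012926968, 2902643953), (0, 17952420466, 13981855467), (0, 6108523013, 4793904919), (0, 1415366453, 1109615659), (0, 0, 0)])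
    (V1 := V3)
    (V2 := V0)
    (U1 := V5)
    (U2 := V2)
    (x1 := (0, 2545990, 593271))
    (x2 := (0, 20255294, 4760663))
    (y1 := (0, 8376706513, 6610698367))
    (y2 := (0, 8376706504, 6610698360))
    (m1 := [(0, 4816429333, 1900777998), (0, 2396050548, 1699240879), (0, 2901287514, 2231274533), (0, 3051727698, 2298426525), (0, 3369843357, 2612276976), (0, 14169219229, 11083538867)])
    (m2 := [(0, 4816429333, 1900777998), (0, 2396050548, 1699240879), (0, 2901287514, 2231274533), (0, 3051727698, 2298426525), (0, 3369843357, 2612276976), (0, 14169219229, 11083538867)])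
    (W1 := V4)
    (W2 := V1)
    (u1 := (0, 18011409250, 2184724796))
    (u2 := (0, 18011409250, 2184724796))
    (fun _ _ hT => ⟨⟨t1_0 hT, ⟨t2_9 hT, t2_10 hT⟩, ⟨t2_0 hT, t2_1 hT⟩, t3_3 hT, t3_0 hT, t2_11 hT, t2_2 hT,
    ⟨t4_6 hT, t4_7 hT⟩, ⟨t4_0 hT, t4_1 hT⟩, ⟨t7_0 hT, t7_1 hT⟩, ⟨t5_0 hT, t5_1 hT⟩, ⟨t8_0 hT, t8_1 hT⟩, ⟨t6_0 hT, t6_1 hT⟩⟩,
    ⟨⟨t31_0 hT, t31_1 hT⟩, ⟨t32_0 hT, t32_1 hT⟩, ⟨t33_0 hT, t33_1 hT⟩, ⟨t34_0 hT, t34_1 hT⟩, ⟨t35_0 hT, t35_1 hT⟩, ⟨t36_0 hT, t36_1 hT⟩, trivial⟩,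
    ⟨⟨t13_0 hT, t13_1 hT⟩, ⟨t14_0 hT, t14_1 hT⟩, ⟨t15_0 hT, t15_1 hT⟩, ⟨t16_0 hT, t16_1 hT⟩, ⟨t17_0 hT, t17_1 hT⟩, ⟨t18_0 hT, t18_1 hT⟩, trivial⟩,
    ⟨t37_0 hT, t37_1 hT, ⟨t38_0 hT, t38_1 hT⟩⟩, ⟨t19_0 hT, t19_1 hT, ⟨t20_0 hT, t20_1 hT⟩⟩,
    ⟨⟨t39_0 hT, t39_1 hT⟩, ⟨t40_0 hT, t40_1 hT⟩, ⟨t41_0 hT, t41_1 hT⟩, ⟨t42_0 hT, t42_1 hT⟩, ⟨t43_0 hT, t43_1 hT⟩, ⟨t44_0 hT, t44_1 hT⟩, trivial⟩,
    ⟨⟨t21_0 hT, t21_1 hT⟩, ⟨t22_0 hT, t22_1 hT⟩, ⟨t23_0 hT, t23_1 hT⟩, ⟨t24_0 hT, t24_1 hT⟩, ⟨t25_0 hT, t25_1 hT⟩, ⟨t26_0 hT, t26_1 hT⟩, trivial⟩,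
    ⟨t45_0 hT, t45_1 hT, ⟨t46_0 hT, t46_1 hT⟩⟩, ⟨t27_0 hT, t27_1 hT, ⟨t28_0 hT, t28_1 hT⟩⟩,
    ⟨t47_0 hT, t47_1 hT, ⟨t48_0 hT, t48_1 hT⟩⟩, ⟨t29_0 hT, t29_1 hT, ⟨t30_0 hT, t30_1 hT⟩⟩,
    ⟨⟨⟨⟨t9_0 hT, t9_1 hT⟩, ⟨t10_0 hT, t10_1 hT⟩, ⟨t11_0 hT, t11_1 hT⟩, ⟨t12_0 hT, t12_1 hT⟩, trivial⟩, by decide⟩,
    ⟨⟨⟨t10_2 hT, t10_3 hT⟩, ⟨t11_2 hT, t11_3 hT⟩, ⟨t12_2 hT, t12_3 hT⟩, trivial⟩, by decide⟩,
    ⟨⟨⟨t11_4 hT, t11_5 hT⟩, ⟨t12_4 hT, t12_5 hT⟩, trivial⟩, by decide⟩,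
    trivial⟩⟩)
    (by decide +kernel)

theorem p353 : Cs F 1 3 5 3 true :=
  siteP (D := D) (pk := true) (Mz := Mz) (M := M) (Mc := Mc)
    (X := ⟨280524694722, (0, 38329667634, 30341241992), (0, 157004898977, 117519532627), (0, 14670829229), (0, 56928161608), (0, 2132957), (0, 70871585),
    (0, 28725290557, 6850153266), (0, 37075027917, 7564430489), (0, 338416, 274015), (0, 2853108, 2696592), (0, 967637246, 767061630), (0, 1094607310, 827269248)⟩)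
    (L := [[(884301311, 7032797), (996167170, 7032797), (1125306038, 7032797), (52106958, 314593)],
    [(18539606812, 172782493), (18411297551, 172782493), (913217812, 7272324)],
    [(127596998753, 1924124040), (7882706897, 54103733)]])
    (l1 := [(0, 357725793, 181850349), (0, 546915524, 390659618), (0, 2428858924, 1888254460), (0, 6108523013, 4793904919), (0, 1415366453, 1109615659), (0, 0, 0)])
    (l2 := [(0, 1732545403, 901356973), (0, 4444034347, 3139388098), (0, 20195751699, 15080156584), (0, 6872197763, 5169186425), (0, 1587747596, 1196265528), (0, 0, 0)])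
    (V1 := V3)
    (V2 := V0)
    (U1 := V5)
    (U2 := V2)
    (x1 := (0, 2545990, 593271))
    (x2 := (0, 25785070, 5259886))
    (y1 := (0, 8376706513, 6610698367))
    (y2 := (0, 9432075346, 7127363332))
    (m1 := [(0, 4816429333, 1900777998), (0, 2396050548, 1699240879), (0, 2901287514, 2231274533), (0, 3051727698, 2298426525), (0, 3369843357, 2612276976), (0, 14169219229, 11083538867)])
    (m2 := [(0, 4469854107, 2068977964), (0, 2624441432, 1836381788), (0, 3256713258, 2408140351), (0, 3397519419, 2482573216), (0, 3789600637, 2818822786), (0, 15987704549, 11956667337)])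
    (W1 := V4)
    (W2 := V1)
    (u1 := (0, 18011409250, 2184724796))
    (u2 := (0, 15754718000, 2444587698))
    (fun _ _ hT => ⟨⟨t1_1 hT, ⟨t2_12 hT, t2_13 hT⟩, ⟨t2_3 hT, t2_4 hT⟩, t3_4 hT, t3_1 hT, t2_14 hT, t2_5 hT,
    ⟨t4_8 hT, t4_9 hT⟩, ⟨t4_2 hT, t4_3 hT⟩, ⟨t7_2 hT, t7_3 hT⟩, ⟨t5_2 hT, t5_3 hT⟩, ⟨t8_2 hT, t8_3 hT⟩, ⟨t6_2 hT, t6_3 hT⟩⟩,
    ⟨⟨t31_2 hT, t31_3 hT⟩, ⟨t32_2 hT, t32_3 hT⟩, ⟨t33_2 hT, t33_3 hT⟩, ⟨t34_2 hT, t34_3 hT⟩, ⟨t35_2 hT, t35_3 hT⟩, ⟨t36_2 hT, t36_3 hT⟩, trivial⟩,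
    ⟨⟨t13_2 hT, t13_3 hT⟩, ⟨t14_2 hT, t14_3 hT⟩, ⟨t15_2 hT, t15_3 hT⟩, ⟨t16_2 hT, t16_3 hT⟩, ⟨t17_2 hT, t17_3 hT⟩, ⟨t18_2 hT, t18_3 hT⟩, trivial⟩,
    ⟨t37_2 hT, t37_3 hT, ⟨t38_2 hT, t38_3 hT⟩⟩, ⟨t19_2 hT, t19_3 hT, ⟨t20_2 hT, t20_3 hT⟩⟩,
    ⟨⟨t39_2 hT, t39_3 hT⟩, ⟨t40_2 hT, t40_3 hT⟩, ⟨t41_2 hT, t41_3 hT⟩, ⟨t42_2 hT, t42_3 hT⟩, ⟨t43_2 hT, t43_3 hT⟩, ⟨t44_2 hT, t44_3 hT⟩, trivial⟩,
    ⟨⟨t21_2 hT, t21_3 hT⟩, ⟨t22_2 hT, t22_3 hT⟩, ⟨t23_2 hT, t23_3 hT⟩, ⟨t24_2 hT, t24_3 hT⟩, ⟨t25_2 hT, t25_3 hT⟩, ⟨t26_2 hT, t26_3 hT⟩, trivial⟩,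
    ⟨t45_2 hT, t45_3 hT, ⟨t46_2 hT, t46_3 hT⟩⟩, ⟨t27_2 hT, t27_3 hT, ⟨t28_2 hT, t28_3 hT⟩⟩,
    ⟨t47_2 hT, t47_3 hT, ⟨t48_2 hT, t48_3 hT⟩⟩, ⟨t29_2 hT, t29_3 hT, ⟨t30_2 hT, t30_3 hT⟩⟩,
    ⟨⟨⟨⟨t9_2 hT, t9_3 hT⟩, ⟨t10_4 hT, t10_5 hT⟩, ⟨t11_6 hT, t11_7 hT⟩, ⟨t12_6 hT, t12_7 hT⟩, trivial⟩, by decide⟩,
    ⟨⟨⟨t10_6 hT, t10_7 hT⟩, ⟨t11_8 hT, t11_9 hT⟩, ⟨t12_8 hT, t12_9 hT⟩, trivial⟩, by decide⟩,
    ⟨⟨⟨t11_10 hT, t11_11 hT⟩, ⟨t12_10 hT, t12_11 hT⟩, trivial⟩, by decide⟩,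
    trivial⟩⟩)
    (by decide +kernel)

theorem p533 : Cs F 1 5 3 3 true :=
  siteP (D := D) (pk := true) (Mz := Mz) (M := M) (Mc := Mc)
    (X := ⟨280524694722, (0, 43362816727, 32727076638), (0, 138712159314, 108872171323), (0, 15826881059), (0, 52681902893), (0, 2399834), (0, 62694719),
    (0, 37075027917, 7564430489), (0, 28725290557, 6850153266), (0, 330317, 303233), (0, 2692880, 2396158), (0, 1094607309, 827269247), (0, 967637247, 767061631)⟩)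
    (L := [[(888133840, 7054312), (1000089224, 7054312), (1129184078, 7054312), (52424481, 318339)],
    [(18539606812, 172782493), (18411297551, 172782493), (913217812, 7272324)],
    [(127596998753, 1924124040), (7882706897, 54103733)]])
    (l1 := [(0, 386550514, 203822064), (0, 601014779, 422625030), (0, 2728782397, 2036603307), (0, 6872197763, 5169186425), (0, 1587747596, 1196265528), (0, 0, 0)])
    (l2 := [(0, 1624951442, 807450898), (0, 4012926968, 2902643953), (0, 17952420466, 13981855467), (0, 6108523013, 4793904919), (0, 1415366453, 1109615659), (0, 0, 0)])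
    (V1 := V3)
    (V2 := V0)
    (U1 := V5)
    (U2 := V2)
    (x1 := (0, 3195319, 651443))
    (x2 := (0, 20255294, 4760663))
    (y1 := (0, 9432075355, 7127363339))
    (y2 := (0, 8376706504, 6610698360))
    (m1 := [(0, 4469854107, 2068977964), (0, 2624441432, 1836381788), (0, 3256713258, 2408140351), (0, 3397519419, 2482573216), (0, 3789600637, 2818822786), (0, 15987704549, 11956667337)])
    (m2 := [(0, 4816429333, 1900777998), (0, 2396050548, 1699240879), (0, 2901287514, 2231274533), (0, 3051727698, 2298426525), (0, 3369843357, 2612276976), (0, 14169219229, 11083538867)])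
    (W1 := V4)
    (W2 := V1)
    (u1 := (0, 15754718000, 2444587698))
    (u2 := (0, 18011409250, 2184724796))
    (fun _ _ hT => ⟨⟨t1_2 hT, ⟨t2_15 hT, t2_16 hT⟩, ⟨t2_6 hT, t2_7 hT⟩, t3_5 hT, t3_2 hT, t2_17 hT, t2_8 hT,
    ⟨t4_10 hT, t4_11 hT⟩, ⟨t4_4 hT, t4_5 hT⟩, ⟨t7_4 hT, t7_5 hT⟩, ⟨t5_4 hT, t5_5 hT⟩, ⟨t8_4 hT, t8_5 hT⟩, ⟨t6_4 hT, t6_5 hT⟩⟩,
    ⟨⟨t31_4 hT, t31_5 hT⟩, ⟨t32_4 hT, t32_5 hT⟩, ⟨t33_4 hT, t33_5 hT⟩, ⟨t34_4 hT, t34_5 hT⟩, ⟨t35_4 hT, t35_5 hT⟩, ⟨t36_4 hT, t36_5 hT⟩, trivial⟩,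
    ⟨⟨t13_4 hT, t13_5 hT⟩, ⟨t14_4 hT, t14_5 hT⟩, ⟨t15_4 hT, t15_5 hT⟩, ⟨t16_4 hT, t16_5 hT⟩, ⟨t17_4 hT, t17_5 hT⟩, ⟨t18_4 hT, t18_5 hT⟩, trivial⟩,
    ⟨t37_4 hT, t37_5 hT, ⟨t38_4 hT, t38_5 hT⟩⟩, ⟨t19_4 hT, t19_5 hT, ⟨t20_4 hT, t20_5 hT⟩⟩,
    ⟨⟨t39_4 hT, t39_5 hT⟩, ⟨t40_4 hT, t40_5 hT⟩, ⟨t41_4 hT, t41_5 hT⟩, ⟨t42_4 hT, t42_5 hT⟩, ⟨t43_4 hT, t43_5 hT⟩, ⟨t44_4 hT, t44_5 hT⟩, trivial⟩,
    ⟨⟨t21_4 hT, t21_5 hT⟩, ⟨t22_4 hT, t22_5 hT⟩, ⟨t23_4 hT, t23_5 hT⟩, ⟨t24_4 hT, t24_5 hT⟩, ⟨t25_4 hT, t25_5 hT⟩, ⟨t26_4 hT, t26_5 hT⟩, trivial⟩,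
    ⟨t45_4 hT, t45_5 hT, ⟨t46_4 hT, t46_5 hT⟩⟩, ⟨t27_4 hT, t27_5 hT, ⟨t28_4 hT, t28_5 hT⟩⟩,
    ⟨t47_4 hT, t47_5 hT, ⟨t48_4 hT, t48_5 hT⟩⟩, ⟨t29_4 hT, t29_5 hT, ⟨t30_4 hT, t30_5 hT⟩⟩,
    ⟨⟨⟨⟨t9_4 hT, t9_5 hT⟩, ⟨t10_8 hT, t10_9 hT⟩, ⟨t11_12 hT, t11_13 hT⟩, ⟨t12_12 hT, t12_13 hT⟩, trivial⟩, by decide⟩,
    ⟨⟨⟨t10_10 hT, t10_11 hT⟩, ⟨t11_14 hT, t11_15 hT⟩, ⟨t12_14 hT, t12_15 hT⟩, trivial⟩, by decide⟩,
    ⟨⟨⟨t11_16 hT, t11_17 hT⟩, ⟨t12_16 hT, t12_17 hT⟩, trivial⟩, by decide⟩,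
    trivial⟩⟩)
    (by decide +kernel)

theorem p964 : Cs F 0 9 6 4 true :=
  siteP (D := D) (pk := true) (Mz := Mz) (M := M) (Mc := Mc)
    (X := ⟨270605314391, (102689948070, 5260942470, 1593503265), (0, 84121473999, 45619971394), (49610987441, 831400926), (0, 22081127595), (53543593, 3092625), (0, 3308794),
    (83743385018, 3281471340, 647392123), (0, 133170963265, 27167808415), (6966025, 1159632, 406850), (0, 1245315, 432588), (963043937, 45873085, 14002896), (0, 1672317924, 908854170)⟩)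
    (L := [[(19281906892, 182126182), (19243512187, 182126182), (2487344650, 22426957), (122295276, 966081)],
    [(133291188901, 1993306401), (17805178085, 166849442), (909427989, 7153159)]])
    (l1 := [(1303611445, 333903690, 95031199), (6630614850, 525645047, 153560356), (17010176901, 1004417121, 299663175), (5000881971, 272956901, 80348739), (1108679669, 70129404, 18059645), (0, 0, 0)])
    (l2 := [(0, 936245371, 276369583), (0, 1245913972, 612538560), (0, 5466214647, 2917950388), (0, 13888760079, 7497544582), (0, 3859601349, 2088052520), (0, 0, 0)])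
    (V1 := V9)
    (V2 := V6)
    (U1 := V11)
    (U2 := V8)
    (x1 := (188459584, 8425075, 2569404))
    (x2 := (0, 13147262, 2683864))
    (y1 := (16578739990, 791802908, 241605499))
    (y2 := (0, 7059467856, 3835834212))
    (m1 := [(2059846853, 574176678, 159312359), (3143915041, 254202089, 73177678), (3623001470, 248399725, 71413763), (3068822618, 203182894, 57942443), (2906218206, 167667970, 48111779), (10550000221, 550240528, 164097005)])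
    (m2 := [(0, 9448060966, 2429520294), (0, 4380001161, 2122676745), (0, 5265940552, 2776026265), (0, 6345083608, 3296749274), (0, 5582102039, 2890509820), (0, 4160245607, 2208685268)])
    (W1 := V10)
    (W2 := V7)
    (u1 := (9364567177, 3373094899, 856433389))
    (u2 := (0, 34183611606, 4602761977))
    (fun _ _ hT => ⟨⟨t49_0 hT, ⟨t50_6 hT, t50_7 hT⟩, ⟨t50_0 hT, t50_1 hT⟩, t51_2 hT, t51_0 hT, t50_8 hT, t50_2 hT,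
    ⟨t52_4 hT, t52_5 hT⟩, ⟨t52_0 hT, t52_1 hT⟩, ⟨t55_0 hT, t55_1 hT⟩, ⟨t53_0 hT, t53_1 hT⟩, ⟨t56_0 hT, t56_1 hT⟩, ⟨t54_0 hT, t54_1 hT⟩⟩,
    ⟨⟨t79_0 hT, t79_1 hT⟩, ⟨t80_0 hT, t80_1 hT⟩, ⟨t81_0 hT, t81_1 hT⟩, ⟨t82_0 hT, t82_1 hT⟩, ⟨t83_0 hT, t83_1 hT⟩, ⟨t84_0 hT, t84_1 hT⟩, trivial⟩,
    ⟨⟨t61_0 hT, t61_1 hT⟩, ⟨t62_0 hT, t62_1 hT⟩, ⟨t63_0 hT, t63_1 hT⟩, ⟨t64_0 hT, t64_1 hT⟩, ⟨t65_0 hT, t65_1 hT⟩, ⟨t66_0 hT, t66_1 hT⟩, trivial⟩,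
    ⟨t85_0 hT, t85_1 hT, ⟨t86_0 hT, t86_1 hT⟩⟩, ⟨t67_0 hT, t67_1 hT, ⟨t68_0 hT, t68_1 hT⟩⟩,
    ⟨⟨t87_0 hT, t87_1 hT⟩, ⟨t88_0 hT, t88_1 hT⟩, ⟨t89_0 hT, t89_1 hT⟩, ⟨t90_0 hT, t90_1 hT⟩, ⟨t91_0 hT, t91_1 hT⟩, ⟨t92_0 hT, t92_1 hT⟩, trivial⟩,
    ⟨⟨t69_0 hT, t69_1 hT⟩, ⟨t70_0 hT, t70_1 hT⟩, ⟨t71_0 hT, t71_1 hT⟩, ⟨t72_0 hT, t72_1 hT⟩, ⟨t73_0 hT, t73_1 hT⟩, ⟨t74_0 hT, t74_1 hT⟩, trivial⟩,
    ⟨t93_0 hT, t93_1 hT, ⟨t94_0 hT, t94_1 hT⟩⟩, ⟨t75_0 hT, t75_1 hT, ⟨t76_0 hT, t76_1 hT⟩⟩,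
    ⟨t95_0 hT, t95_1 hT, ⟨t96_0 hT, t96_1 hT⟩⟩, ⟨t77_0 hT, t77_1 hT, ⟨t78_0 hT, t78_1 hT⟩⟩,
    ⟨⟨⟨⟨t57_0 hT, t57_1 hT⟩, ⟨t58_0 hT, t58_1 hT⟩, ⟨t59_0 hT, t59_1 hT⟩, ⟨t60_0 hT, t60_1 hT⟩, trivial⟩, by decide⟩,
    ⟨⟨⟨t58_2 hT, t58_3 hT⟩, ⟨t59_2 hT, t59_3 hT⟩, ⟨t60_2 hT, t60_3 hT⟩, trivial⟩, by decide⟩,
    trivial⟩⟩)
    (by decide +kernel)

theorem p074 : Cs F 0 0 7 4 true :=
  siteP (D := D) (pk := true) (Mz := Mz) (M := M) (Mc := Mc)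
    (X := ⟨270605314391, (102691000190, 14489779516, 2931359063), (0, 64139930481, 36713413366), (49611575414, 1519692757), (0, 17762172757), (53545486, 5730959), (0, 3231076),
    (83744089989, 10500052844, 2140556503), (0, 99650615001, 24326243861), (6966277, 3750759, 754731), (0, 946989, 428956), (963052469, 127101841, 25938053), (0, 1274378844, 731687251)⟩)
    (L := [[(19281906892, 182126182), (19243512187, 182126182), (2487344650, 22426957), (122295276, 966081)],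
    [(133291188901, 1993306401), (17805178085, 166849442), (909427989, 7153159)]])
    (l1 := [(1303712467, 884265851, 165882531), (6630751521, 1414959113, 274261136), (17010402671, 2740882715, 544844054), (5000953596, 739967954, 146257709), (1108711062, 181502002, 32083216), (0, 0, 0)])
    (l2 := [(0, 746695928, 259375876), (0, 981287491, 484741776), (0, 4212083981, 2343068869), (0, 10654377981, 6031390661), (0, 2971298494, 1680630002), (0, 0, 0)])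
    (V1 := V9)
    (V2 := V6)
    (U1 := V11)
    (U2 := V8)
    (x1 := (188461156, 23354274, 4758448))
    (x2 := (0, 9962514, 2415930))
    (y1 := (16578887388, 2193269969, 447469025))
    (y2 := (0, 5399281275, 3088978934))
    (m1 := [(2060039940, 1475943151, 268760497), (3143989918, 679140923, 130168635), (3623075280, 662561280, 126853410), (3068886486, 541151383, 102618998), (2906270754, 451141026, 86491378), (10550127543, 1501945873, 299613805)])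
    (m2 := [(0, 8385188655, 2160207365), (0, 3407712272, 1665209091), (0, 4122365507, 2231944814), (0, 5103155349, 2658831788), (0, 4519739747, 2333052863), (0, 3278542836, 1780773297)])
    (W1 := V10)
    (W2 := V7)
    (u1 := (9366026130, 7975119346, 1321149662))
    (u2 := (0, 43603747099, 3995373910))
    (fun _ _ hT => ⟨⟨t49_1 hT, ⟨t50_9 hT, t50_10 hT⟩, ⟨t50_3 hT, t50_4 hT⟩, t51_3 hT, t51_1 hT, t50_11 hT, t50_5 hT,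
    ⟨t52_6 hT, t52_7 hT⟩, ⟨t52_2 hT, t52_3 hT⟩, ⟨t55_2 hT, t55_3 hT⟩, ⟨t53_2 hT, t53_3 hT⟩, ⟨t56_2 hT, t56_3 hT⟩, ⟨t54_2 hT, t54_3 hT⟩⟩,
    ⟨⟨t79_2 hT, t79_3 hT⟩, ⟨t80_2 hT, t80_3 hT⟩, ⟨t81_2 hT, t81_3 hT⟩, ⟨t82_2 hT, t82_3 hT⟩, ⟨t83_2 hT, t83_3 hT⟩, ⟨t84_2 hT, t84_3 hT⟩, trivial⟩,
    ⟨⟨t61_2 hT, t61_3 hT⟩, ⟨t62_2 hT, t62_3 hT⟩, ⟨t63_2 hT, t63_3 hT⟩, ⟨t64_2 hT, t64_3 hT⟩, ⟨t65_2 hT, t65_3 hT⟩, ⟨t66_2 hT, t66_3 hT⟩, trivial⟩,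
    ⟨t85_2 hT, t85_3 hT, ⟨t86_2 hT, t86_3 hT⟩⟩, ⟨t67_2 hT, t67_3 hT, ⟨t68_2 hT, t68_3 hT⟩⟩,
    ⟨⟨t87_2 hT, t87_3 hT⟩, ⟨t88_2 hT, t88_3 hT⟩, ⟨t89_2 hT, t89_3 hT⟩, ⟨t90_2 hT, t90_3 hT⟩, ⟨t91_2 hT, t91_3 hT⟩, ⟨t92_2 hT, t92_3 hT⟩, trivial⟩,
    ⟨⟨t69_2 hT, t69_3 hT⟩, ⟨t70_2 hT, t70_3 hT⟩, ⟨t71_2 hT, t71_3 hT⟩, ⟨t72_2 hT, t72_3 hT⟩, ⟨t73_2 hT, t73_3 hT⟩, ⟨t74_2 hT, t74_3 hT⟩, trivial⟩,
    ⟨t93_2 hT, t93_3 hT, ⟨t94_2 hT, t94_3 hT⟩⟩, ⟨t75_2 hT, t75_3 hT, ⟨t76_2 hT, t76_3 hT⟩⟩,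
    ⟨t95_2 hT, t95_3 hT, ⟨t96_2 hT, t96_3 hT⟩⟩, ⟨t77_2 hT, t77_3 hT, ⟨t78_2 hT, t78_3 hT⟩⟩,
    ⟨⟨⟨⟨t57_2 hT, t57_3 hT⟩, ⟨t58_4 hT, t58_5 hT⟩, ⟨t59_4 hT, t59_5 hT⟩, ⟨t60_4 hT, t60_5 hT⟩, trivial⟩, by decide⟩,
    ⟨⟨⟨t58_6 hT, t58_7 hT⟩, ⟨t59_6 hT, t59_7 hT⟩, ⟨t60_6 hT, t60_7 hT⟩, trivial⟩, by decide⟩,
    trivial⟩⟩)
    (by decide +kernel)

theorem p784 : Cs F 0 7 8 4 true :=
  siteP (D := D) (pk := true) (Mz := Mz) (M := M) (Mc := Mc)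
    (X := ⟨270595353649, (0, 64139932167, 36713414333), (103178262326, 18882617316, 5818660643), (0, 17762173281), (49869898756, 3016181394), (0, 3231076), (54499600, 11440266),
    (0, 99650615001, 24326243861), (84091892852, 11746490963, 2326738377), (0, 946999, 428959), (7091051, 4211818, 1501532), (0, 1300840001, 746880041), (792158693, 135567016, 42175716)⟩)
    (L := [[(918464401, 7400225), (1038823540, 7400225), (1177450323, 7400225), (140472310, 900707)],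
    [(19135012070, 181123661), (19090887172, 181123661), (2344209719, 21464782)],
    [(132152845311, 1986185838), (16789288564, 159728950)]])
    (l1 := [(0, 746781107, 259408161), (0, 981358943, 484779934), (0, 4212300609, 2343191732), (0, 10654683609, 6031564744), (0, 2971707529, 1680863353), (0, 0, 0)])
    (l2 := [(1329676461, 1180449040, 328225327), (6660782236, 1842900704, 542885435), (17083500827, 3570257924, 1080258598), (5016093920, 957059904, 289039685), (1095727830, 234262382, 61343787), (0, 0, 0)])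
    (V1 := V15)
    (V2 := V12)
    (U1 := V17)
    (U2 := V14)
    (x1 := (0, 9067965, 2198261))
    (x2 := (189227236, 30394438, 9442263))
    (y1 := (0, 5470112122, 3129501936))
    (y2 := (9920668837, 1702272365, 529396513))
    (m1 := [(0, 8565348410, 2207350764), (0, 3483520854, 1702521709), (0, 4223870412, 2287382379), (0, 5235247380, 2728385282), (0, 4658136854, 2405157577), (0, 3549136392, 1928841621)])
    (m2 := [(1729358250, 1734164307, 434820540), (2582182687, 724958437, 210636235), (2986255548, 708571743, 205849507), (2572885721, 590588063, 168913473), (2635057296, 524815548, 153818656), (10600751738, 1951296316, 593810793)])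
    (W1 := V16)
    (W2 := V13)
    (u1 := (0, 43487655075, 3984731787))
    (u2 := (7959640896, 10759162345, 2125135192))
    (fun _ _ hT => ⟨⟨t97_0 hT, ⟨t98_3 hT, t98_4 hT⟩, ⟨t98_0 hT, t98_1 hT⟩, t99_1 hT, t99_0 hT, t98_5 hT, t98_2 hT,
    ⟨t100_2 hT, t100_3 hT⟩, ⟨t100_0 hT, t100_1 hT⟩, ⟨t103_0 hT, t103_1 hT⟩, ⟨t101_0 hT, t101_1 hT⟩, ⟨t104_0 hT, t104_1 hT⟩, ⟨t102_0 hT, t102_1 hT⟩⟩,
    ⟨⟨t127_0 hT, t127_1 hT⟩, ⟨t128_0 hT, t128_1 hT⟩, ⟨t129_0 hT, t129_1 hT⟩, ⟨t130_0 hT, t130_1 hT⟩, ⟨t131_0 hT, t131_1 hT⟩, ⟨t132_0 hT, t132_1 hT⟩, trivial⟩,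
    ⟨⟨t109_0 hT, t109_1 hT⟩, ⟨t110_0 hT, t110_1 hT⟩, ⟨t111_0 hT, t111_1 hT⟩, ⟨t112_0 hT, t112_1 hT⟩, ⟨t113_0 hT, t113_1 hT⟩, ⟨t114_0 hT, t114_1 hT⟩, trivial⟩,
    ⟨t133_0 hT, t133_1 hT, ⟨t134_0 hT, t134_1 hT⟩⟩, ⟨t115_0 hT, t115_1 hT, ⟨t116_0 hT, t116_1 hT⟩⟩,
    ⟨⟨t135_0 hT, t135_1 hT⟩, ⟨t136_0 hT, t136_1 hT⟩, ⟨t137_0 hT, t137_1 hT⟩, ⟨t138_0 hT, t138_1 hT⟩, ⟨t139_0 hT, t139_1 hT⟩, ⟨t140_0 hT, t140_1 hT⟩, trivial⟩,
    ⟨⟨t117_0 hT, t117_1 hT⟩, ⟨t118_0 hT, t118_1 hT⟩, ⟨t119_0 hT, t119_1 hT⟩, ⟨t120_0 hT, t120_1 hT⟩, ⟨t121_0 hT, t121_1 hT⟩, ⟨t122_0 hT, t122_1 hT⟩, trivial⟩,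
    ⟨t141_0 hT, t141_1 hT, ⟨t142_0 hT, t142_1 hT⟩⟩, ⟨t123_0 hT, t123_1 hT, ⟨t124_0 hT, t124_1 hT⟩⟩,
    ⟨t143_0 hT, t143_1 hT, ⟨t144_0 hT, t144_1 hT⟩⟩, ⟨t125_0 hT, t125_1 hT, ⟨t126_0 hT, t126_1 hT⟩⟩,
    ⟨⟨⟨⟨t105_0 hT, t105_1 hT⟩, ⟨t106_0 hT, t106_1 hT⟩, ⟨t107_0 hT, t107_1 hT⟩, ⟨t108_0 hT, t108_1 hT⟩, trivial⟩, by decide⟩,
    ⟨⟨⟨t106_2 hT, t106_3 hT⟩, ⟨t107_2 hT, t107_3 hT⟩, ⟨t108_2 hT, t108_3 hT⟩, trivial⟩, by decide⟩,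
    ⟨⟨⟨t107_4 hT, t107_5 hT⟩, ⟨t108_4 hT, t108_5 hT⟩, trivial⟩, by decide⟩,
    trivial⟩⟩)
    (by decide +kernel)

theorem p334 : Cs F 1 3 3 4 false :=
  siteU (D := D) (pk := false) (Mz := Mz) (M := M) (Mc := Mc)
    (X := ⟨273039622320, (0, 38319787608, 30333421291), (0, 38478654115, 30458848864), (0, 14665554399), (0, 14728080113), (0, 2132782), (0, 2132782),
    (0, 28725295326, 6850154440), (0, 28725295326, 6850154440), (0, 356264, 290756), (0, 356264, 290756), (0, 271995149, 215591601), (0, 271995149, 215591601)⟩)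
    (L := [([(951433548, 7548817), (1301519568, 7548817), (1225651670, 7548817), (173775425, 1068043)], (34945229, 197940)),
    ([(21590803171, 185494848), (21887757581, 185494848), (2975740116, 25838291)], (632181789, 4389755)),
    ([(138204488615, 2018742292), (23266929451, 192290575)], (4726645136, 32648416))])
    (l := [(0, 3261046548, 1743156122), (0, 2207587318, 1660431617), (0, 3988651074, 3113103970), (0, 7388178079, 5801416268), (0, 2525514079, 1983476365)])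
    (V := V18)
    (x := (0, 2728318, 636254))
    (y := (0, 11604357337, 9150756891))
    (c0 := (0, 63032476158, 49718985313))
    (u1 := (0, 36255530898, 25134808682))
    (u2 := (0, 36255530900, 25134808684))
    (fun _ _ hT => ⟨⟨t145_0 hT, ⟨t146_9 hT, t146_10 hT⟩, ⟨t146_0 hT, t146_1 hT⟩, t147_3 hT, t147_0 hT, t146_11 hT, t146_2 hT,
    ⟨t148_6 hT, t148_7 hT⟩, ⟨t148_0 hT, t148_1 hT⟩, ⟨t151_0 hT, t151_1 hT⟩, ⟨t149_0 hT, t149_1 hT⟩, ⟨t152_0 hT, t152_1 hT⟩, ⟨t150_0 hT, t150_1 hT⟩⟩,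
    ⟨⟨t153_0 hT, t153_1 hT⟩, ⟨t154_0 hT, t154_1 hT⟩, ⟨t156_0 hT, t156_1 hT⟩, ⟨t158_0 hT, t158_1 hT⟩, ⟨t160_0 hT, t160_1 hT⟩, trivial⟩, ⟨t162_0 hT, t162_1 hT⟩,
    ⟨t164_0 hT, t164_1 hT, ⟨t165_0 hT, t165_1 hT⟩⟩, ⟨t166_0 hT, t166_1 hT⟩, ⟨t168_0 hT, t168_1 hT⟩, ⟨t167_0 hT, t167_1 hT⟩,
    ⟨⟨⟨⟨t155_0 hT, t155_1 hT⟩, ⟨t157_0 hT, t157_1 hT⟩, ⟨t159_0 hT, t159_1 hT⟩, ⟨t161_0 hT, t161_1 hT⟩, trivial⟩, ⟨t163_0 hT, t163_1 hT⟩, by decide⟩,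
    ⟨⟨⟨t157_2 hT, t157_3 hT⟩, ⟨t159_2 hT, t159_3 hT⟩, ⟨t161_2 hT, t161_3 hT⟩, trivial⟩, ⟨t163_2 hT, t163_3 hT⟩, by decide⟩,
    ⟨⟨⟨t159_4 hT, t159_5 hT⟩, ⟨t161_4 hT, t161_5 hT⟩, trivial⟩, ⟨t163_4 hT, t163_5 hT⟩, by decide⟩,
    trivial⟩⟩)
    (by decide +kernel)

theorem p354 : Cs F 1 3 5 4 false :=
  siteU (D := D) (pk := false) (Mz := Mz) (M := M) (Mc := Mc)
    (X := ⟨273039622320, (0, 38319787608, 30333421291), (0, 43531421856, 32854001219), (0, 14665554399), (0, 15888830057), (0, 2132782), (0, 2399637),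
    (0, 28725295326, 6850154440), (0, 37075033257, 7564431576), (0, 356264, 290756), (0, 349648, 322050), (0, 271995149, 215591601), (0, 307657693, 232509860)⟩)
    (L := [([(951433548, 7548817), (1301519568, 7548817), (1225651670, 7548817), (173775425, 1068043)], (34945229, 197940)),
    ([(21590803171, 185494848), (21887757581, 185494848), (2975740116, 25838291)], (632181789, 4389755)),
    ([(138204488615, 2018742292), (23266929451, 192290575)], (4726645136, 32648416))])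
    (l := [(0, 3261046548, 1743156122), (0, 2207587318, 1660431617), (0, 3988651074, 3113103970), (0, 7388178079, 5801416268), (0, 2525514079, 1983476365)])
    (V := V18)
    (x := (0, 2728318, 636254))
    (y := (0, 11604357337, 9150756891))
    (c0 := (0, 70968392626, 53605226684))
    (u1 := (0, 36255530898, 25134808682))
    (u2 := (0, 39234699507, 27235278935))
    (fun _ _ hT => ⟨⟨t145_1 hT, ⟨t146_12 hT, t146_13 hT⟩, ⟨t146_3 hT, t146_4 hT⟩, t147_4 hT, t147_1 hT, t146_14 hT, t146_5 hT,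
    ⟨t148_8 hT, t148_9 hT⟩, ⟨t148_2 hT, t148_3 hT⟩, ⟨t151_2 hT, t151_3 hT⟩, ⟨t149_2 hT, t149_3 hT⟩, ⟨t152_2 hT, t152_3 hT⟩, ⟨t150_2 hT, t150_3 hT⟩⟩,
    ⟨⟨t153_2 hT, t153_3 hT⟩, ⟨t154_2 hT, t154_3 hT⟩, ⟨t156_2 hT, t156_3 hT⟩, ⟨t158_2 hT, t158_3 hT⟩, ⟨t160_2 hT, t160_3 hT⟩, trivial⟩, ⟨t162_2 hT, t162_3 hT⟩,
    ⟨t164_2 hT, t164_3 hT, ⟨t165_2 hT, t165_3 hT⟩⟩, ⟨t166_2 hT, t166_3 hT⟩, ⟨t168_2 hT, t168_3 hT⟩, ⟨t167_2 hT, t167_3 hT⟩,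
    ⟨⟨⟨⟨t155_2 hT, t155_3 hT⟩, ⟨t157_4 hT, t157_5 hT⟩, ⟨t159_6 hT, t159_7 hT⟩, ⟨t161_6 hT, t161_7 hT⟩, trivial⟩, ⟨t163_6 hT, t163_7 hT⟩, by decide⟩,
    ⟨⟨⟨t157_6 hT, t157_7 hT⟩, ⟨t159_8 hT, t159_9 hT⟩, ⟨t161_8 hT, t161_9 hT⟩, trivial⟩, ⟨t163_8 hT, t163_9 hT⟩, by decide⟩,
    ⟨⟨⟨t159_10 hT, t159_11 hT⟩, ⟨t161_10 hT, t161_11 hT⟩, trivial⟩, ⟨t163_10 hT, t163_11 hT⟩, by decide⟩,
    trivial⟩⟩)
    (by decide +kernel)

theorem p534 : Cs F 1 5 3 4 false :=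
  siteU (D := D) (pk := false) (Mz := Mz) (M := M) (Mc := Mc)
    (X := ⟨273039622320, (0, 43351638255, 32718640637), (0, 38478654115, 30458848864), (0, 15821191188), (0, 14728080113), (0, 2399637), (0, 2132782),
    (0, 37075033257, 7564431576), (0, 28725295326, 6850154440), (0, 349648, 322050), (0, 356264, 290756), (0, 307657693, 232509860), (0, 271995149, 215591601)⟩)
    (L := [([(955712742, 7571692), (1305936075, 7571692), (1229846253, 7571692), (174495396, 1073842)], (35207625, 201441)),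
    ([(21590803171, 185494848), (21887757581, 185494848), (2975740116, 25838291)], (632181789, 4389755)),
    ([(138204488615, 2018742292), (23266929451, 192290575)], (4726645136, 32648416))])
    (l := [(0, 3630158090, 1966247558), (0, 2476887589, 1796481942), (0, 4484656288, 3357660405), (0, 8312944267, 6255568556), (0, 2837804404, 2138518093)])
    (V := V18)
    (x := (0, 3428411, 698995))
    (y := (0, 13060471968, 9865870931))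
    (c0 := (0, 63032476158, 49718985313))
    (u1 := (0, 39234699503, 27235278933))
    (u2 := (0, 36255530900, 25134808684))
    (fun _ _ hT => ⟨⟨t145_2 hT, ⟨t146_15 hT, t146_16 hT⟩, ⟨t146_6 hT, t146_7 hT⟩, t147_5 hT, t147_2 hT, t146_17 hT, t146_8 hT,
    ⟨t148_10 hT, t148_11 hT⟩, ⟨t148_4 hT, t148_5 hT⟩, ⟨t151_4 hT, t151_5 hT⟩, ⟨t149_4 hT, t149_5 hT⟩, ⟨t152_4 hT, t152_5 hT⟩, ⟨t150_4 hT, t150_5 hT⟩⟩,
    ⟨⟨t153_4 hT, t153_5 hT⟩, ⟨t154_4 hT, t154_5 hT⟩, ⟨t156_4 hT, t156_5 hT⟩, ⟨t158_4 hT, t158_5 hT⟩, ⟨t160_4 hT, t160_5 hT⟩, trivial⟩, ⟨t162_4 hT, t162_5 hT⟩,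
    ⟨t164_4 hT, t164_5 hT, ⟨t165_4 hT, t165_5 hT⟩⟩, ⟨t166_4 hT, t166_5 hT⟩, ⟨t168_4 hT, t168_5 hT⟩, ⟨t167_4 hT, t167_5 hT⟩,
    ⟨⟨⟨⟨t155_4 hT, t155_5 hT⟩, ⟨t157_8 hT, t157_9 hT⟩, ⟨t159_12 hT, t159_13 hT⟩, ⟨t161_12 hT, t161_13 hT⟩, trivial⟩, ⟨t163_12 hT, t163_13 hT⟩, by decide⟩,
    ⟨⟨⟨t157_10 hT, t157_11 hT⟩, ⟨t159_14 hT, t159_15 hT⟩, ⟨t161_14 hT, t161_15 hT⟩, trivial⟩, ⟨t163_14 hT, t163_15 hT⟩, by decide⟩,
    ⟨⟨⟨t159_16 hT, t159_17 hT⟩, ⟨t161_16 hT, t161_17 hT⟩, trivial⟩, ⟨t163_16 hT, t163_17 hT⟩, by decide⟩,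
    trivial⟩⟩)
    (by decide +kernel)

theorem p965 : Cs F 0 9 6 5 false :=
  siteU (D := D) (pk := false) (Mz := Mz) (M := M) (Mc := Mc)
    (X := ⟨271316446591, (102687870172, 5260835417, 1593470588), (0, 24342266253, 13219327691), (49609980962, 831385093), (0, 6655296995), (53543581, 3092624), (0, 386950),
    (83743397908, 3281473447, 647392538), (0, 133170966935, 27167809135), (7013710, 1167428, 409598), (0, 204734, 62523), (270921131, 12924984, 3944349), (0, 484005904, 263036712)⟩)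
    (L := [([(21317374846, 183732835), (21587834174, 183732835), (2694207815, 24050343)], (430323682, 3353424)),
    ([(136189095305, 2005261595), (21184937144, 178929157)], (3198031318, 24921913))])
    (l := [(5135346274, 941811679, 280460779), (9960468607, 720714546, 213031848), (18936738029, 1103108609, 329735886), (6034882287, 324814134, 96135460)])
    (V := V19)
    (x := (190467478, 8553981, 2608736))
    (y := (19041256310, 925180634, 279828434))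
    (c0 := (0, 35845800762, 19469670803))
    (u1 := (31901101487, 2422639784, 691308709))
    (u2 := (0, 56854811925, 27475677950))
    (fun _ _ hT => ⟨⟨t169_0 hT, ⟨t170_6 hT, t170_7 hT⟩, ⟨t170_0 hT, t170_1 hT⟩, t171_2 hT, t171_0 hT, t170_8 hT, t170_2 hT,
    ⟨t172_4 hT, t172_5 hT⟩, ⟨t172_0 hT, t172_1 hT⟩, ⟨t175_0 hT, t175_1 hT⟩, ⟨t173_0 hT, t173_1 hT⟩, ⟨t176_0 hT, t176_1 hT⟩, ⟨t174_0 hT, t174_1 hT⟩⟩,
    ⟨⟨t177_0 hT, t177_1 hT⟩, ⟨t178_0 hT, t178_1 hT⟩, ⟨t180_0 hT, t180_1 hT⟩, ⟨t182_0 hT, t182_1 hT⟩, trivial⟩, ⟨t184_0 hT, t184_1 hT⟩,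
    ⟨t186_0 hT, t186_1 hT, ⟨t187_0 hT, t187_1 hT⟩⟩, ⟨t188_0 hT, t188_1 hT⟩, ⟨t190_0 hT, t190_1 hT⟩, ⟨t189_0 hT, t189_1 hT⟩,
    ⟨⟨⟨⟨t179_0 hT, t179_1 hT⟩, ⟨t181_0 hT, t181_1 hT⟩, ⟨t183_0 hT, t183_1 hT⟩, trivial⟩, ⟨t185_0 hT, t185_1 hT⟩, by decide⟩,
    ⟨⟨⟨t181_2 hT, t181_3 hT⟩, ⟨t183_2 hT, t183_3 hT⟩, trivial⟩, ⟨t185_2 hT, t185_3 hT⟩, by decide⟩,
    trivial⟩⟩)
    (by decide +kernel)

theorem p075 : Cs F 0 0 7 5 false :=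
  siteU (D := D) (pk := false) (Mz := Mz) (M := M) (Mc := Mc)
    (X := ⟨271316446591, (102688922271, 14489482853, 2931298532), (0, 18559131841, 10642646041), (49610568925, 1519663428), (0, 5357674126), (53545473, 5730957), (0, 384558),
    (83744102880, 10500059593, 2140557877), (0, 99650617633, 24326244500), (7013964, 3775326, 759805), (0, 204114, 62432), (270923538, 35824903, 7306136), (0, 368848253, 211767005)⟩)
    (L := [([(21317374846, 183732835), (21587834174, 183732835), (2694207815, 24050343)], (430323682, 3353424)),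
    ([(136189095305, 2005261595), (21184937144, 178929157)], (3198031318, 24921913))])
    (l := [(5135560697, 2568314148, 509268986), (9960641802, 1955233953, 384345133), (18936982363, 3014030854, 600465457), (6034963760, 883329090, 175420076)])
    (V := V19)
    (x := (190469073, 23711383, 4831295))
    (y := (19041447234, 2549935839, 516624460))
    (c0 := (0, 27440119962, 15679840825))
    (u1 := (31901811796, 6341296129, 1199178232))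
    (u2 := (0, 49604392515, 22276147140))
    (fun _ _ hT => ⟨⟨t169_1 hT, ⟨t170_9 hT, t170_10 hT⟩, ⟨t170_3 hT, t170_4 hT⟩, t171_3 hT, t171_1 hT, t170_11 hT, t170_5 hT,
    ⟨t172_6 hT, t172_7 hT⟩, ⟨t172_2 hT, t172_3 hT⟩, ⟨t175_2 hT, t175_3 hT⟩, ⟨t173_2 hT, t173_3 hT⟩, ⟨t176_2 hT, t176_3 hT⟩, ⟨t174_2 hT, t174_3 hT⟩⟩,
    ⟨⟨t177_2 hT, t177_3 hT⟩, ⟨t178_2 hT, t178_3 hT⟩, ⟨t180_2 hT, t180_3 hT⟩, ⟨t182_2 hT, t182_3 hT⟩, trivial⟩, ⟨t184_2 hT, t184_3 hT⟩,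
    ⟨t186_2 hT, t186_3 hT, ⟨t187_2 hT, t187_3 hT⟩⟩, ⟨t188_2 hT, t188_3 hT⟩, ⟨t190_2 hT, t190_3 hT⟩, ⟨t189_2 hT, t189_3 hT⟩,
    ⟨⟨⟨⟨t179_2 hT, t179_3 hT⟩, ⟨t181_4 hT, t181_5 hT⟩, ⟨t183_4 hT, t183_5 hT⟩, trivial⟩, ⟨t185_4 hT, t185_5 hT⟩, by decide⟩,
    ⟨⟨⟨t181_6 hT, t181_7 hT⟩, ⟨t183_6 hT, t183_7 hT⟩, trivial⟩, ⟨t185_6 hT, t185_7 hT⟩, by decide⟩,
    trivial⟩⟩)
    (by decide +kernel)

theorem p785 : Cs F 0 7 8 5 false :=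
  siteU (D := D) (pk := false) (Mz := Mz) (M := M) (Mc := Mc)
    (X := ⟨271863407945, (0, 64139803062, 36713340421), (29920601972, 5237681365, 1622965602), (0, 17762135169), (15055908159, 838596201), (0, 3231075), (6309309, 1337940),
    (0, 99650617633, 24326244500), (84091906100, 11746498663, 2326739897), (0, 956729, 433561), (846061, 639931, 194676), (0, 368848253, 211767005), (222800518, 38203914, 11876779)⟩)
    (L := [([(944610544, 7504551), (1291358687, 7504551), (1215095426, 7504551), (159574866, 1005720)], (25020734, 164179)),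
    ([(21315865113, 183686440), (21586825940, 183686440), (2687076239, 24044416)], (422398037, 3352774)),
    ([(136128274865, 2005260451), (21124331498, 178929010)], (3137559873, 24921897))])
    (l := [(0, 6406351787, 2410570819), (0, 3552173046, 1888749071), (0, 6356919040, 3563066747), (0, 11921432354, 6754634778), (0, 3718872821, 2107456751)])
    (V := V20)
    (x := (0, 9192719, 2229024))
    (y := (0, 9683352716, 5525375332))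
    (c0 := (47913181814, 8280957929, 2566745461))
    (u1 := (0, 50926279562, 22905509233))
    (u2 := (25849539480, 7014964535, 1918197058))
    (fun _ _ hT => ⟨⟨t191_0 hT, ⟨t192_3 hT, t192_4 hT⟩, ⟨t192_0 hT, t192_1 hT⟩, t193_1 hT, t193_0 hT, t192_5 hT, t192_2 hT,
    ⟨t194_2 hT, t194_3 hT⟩, ⟨t194_0 hT, t194_1 hT⟩, ⟨t197_0 hT, t197_1 hT⟩, ⟨t195_0 hT, t195_1 hT⟩, ⟨t198_0 hT, t198_1 hT⟩, ⟨t196_0 hT, t196_1 hT⟩⟩,
    ⟨⟨t199_0 hT, t199_1 hT⟩, ⟨t200_0 hT, t200_1 hT⟩, ⟨t202_0 hT, t202_1 hT⟩, ⟨t204_0 hT, t204_1 hT⟩, ⟨t206_0 hT, t206_1 hT⟩, trivial⟩, ⟨t208_0 hT, t208_1 hT⟩,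
    ⟨t210_0 hT, t210_1 hT, ⟨t211_0 hT, t211_1 hT⟩⟩, ⟨t212_0 hT, t212_1 hT⟩, ⟨t214_0 hT, t214_1 hT⟩, ⟨t213_0 hT, t213_1 hT⟩,
    ⟨⟨⟨⟨t201_0 hT, t201_1 hT⟩, ⟨t203_0 hT, t203_1 hT⟩, ⟨t205_0 hT, t205_1 hT⟩, ⟨t207_0 hT, t207_1 hT⟩, trivial⟩, ⟨t209_0 hT, t209_1 hT⟩, by decide⟩,
    ⟨⟨⟨t203_2 hT, t203_3 hT⟩, ⟨t205_2 hT, t205_3 hT⟩, ⟨t207_2 hT, t207_3 hT⟩, trivial⟩, ⟨t209_2 hT, t209_3 hT⟩, by decide⟩,
    ⟨⟨⟨t205_4 hT, t205_5 hT⟩, ⟨t207_4 hT, t207_5 hT⟩, trivial⟩, ⟨t209_4 hT, t209_5 hT⟩, by decide⟩,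
    trivial⟩⟩)
    (by decide +kernel)

theorem c0 : Cs F 1 3 3 3 false := (Cs.split p333 p334)

theorem c1 : Cs F 1 3 5 3 false := (Cs.split p353 p354)

theorem c2 : Cs F 1 5 3 3 false := (Cs.split p533 p534)

theorem c3 : Cs F 0 9 6 4 false := (Cs.split p964 p965)

theorem c4 : Cs F 0 0 7 4 false := (Cs.split p074 p075)

theorem c5 : Cs F 0 7 8 4 false := (Cs.split p784 p785)


end Pool.Agent.P.MP_e4ac67_pr.Gr.St
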